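import Mathlib

/-!
Definitions for the statements on caustics by reflection in an ellipse.
-/

namespace Pool.Agent.P.MP_3225bd_gt

/-- The Euclidean plane. -/
abbrev Plane : Type := EuclideanSpace ℝ (Fin 2)

/-- An ellipse in the plane, in arbitrary position: its foci `F₁`, `F₂` (equal for a circle) and
the length `d` of its major axis.  The curve is the set of points `X` with
`dist X F₁ + dist X F₂ = d`. -/
structure Ellipse where
  F₁ : Plane
  F₂ : Plane
  d : ℝ
  dist_lt : dist F₁ F₂ < d

namespace Ellipse

/-- The sum of the distances to the foci.  The ellipse is the level set `focalSum = d`. -/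
noncomputable def focalSum (C : Ellipse) (X : Plane) : ℝ := dist X C.F₁ + dist X C.F₂

/-- The open region `Ω` bounded by the ellipse. -/
def inside (C : Ellipse) : Set Plane := {X | C.focalSum X < C.d}

/-- The point at which the ray starting at `P` in the direction `v` leaves the closed region
bounded by the ellipse, that is, the next point at which it hits the mirror. -/
noncomputable def hit (C : Ellipse) (P v : Plane) : Plane :=
  P + sSup {t : ℝ | C.focalSum (P + t • v) ≤ C.d} • v

/-- One reflection.  A ray (starting point, direction) is followed up to the mirror, and its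
direction is reflected in the tangent line there, the orthogonal complement of the normal
vector `gradient focalSum`. -/
noncomputable def bounce (C : Ellipse) (r : Plane × Plane) : Plane × Plane :=
  (C.hit r.1 r.2, (ℝ ∙ gradient C.focalSum (C.hit r.1 r.2))ᗮ.reflection r.2)

/-- The ray leaving `S` in the direction `(cos θ, sin θ)`, after exactly `n` reflections. -/
noncomputable def ray (C : Ellipse) (S : Plane) (n : ℕ) (θ : ℝ) : Plane × Plane :=
  C.bounce^[n] (S, !₂[Real.cos θ, Real.sin θ])

/-- Coefficients `(A, B, D)` of the equation `A x + B y + D = 0` of the line carrying that ray. -/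
noncomputable def line (C : Ellipse) (S : Plane) (n : ℕ) (θ : ℝ) : Fin 3 → ℝ :=
  ![(C.ray S n θ).2 1, -(C.ray S n θ).2 0,
    (C.ray S n θ).1 1 * (C.ray S n θ).2 0 - (C.ray S n θ).1 0 * (C.ray S n θ).2 1]

/-- The `n`th caustic by reflection, in homogeneous coordinates `[x : y : 1]` of the projective
plane (last coordinate `0` for points at infinity): the envelope point, common solution `E` of
`line θ ⬝ E = 0` and `(d/dθ line θ) ⬝ E = 0`, is the cross product of these two vectors. -/
noncomputable def caustic (C : Ellipse) (S : Plane) (n : ℕ) (θ : ℝ) : Fin 3 → ℝ :=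
  crossProduct (C.line S n θ) (deriv (C.line S n) θ)

/-- The caustic read in the `i`th standard affine chart of the projective plane (`i`th
homogeneous coordinate scaled to `1`).  The chart `i = 2` is the Euclidean plane itself. -/
noncomputable def causticInChart (C : Ellipse) (S : Plane) (n : ℕ) (i : Fin 3) (θ : ℝ) :
    Fin 3 → ℝ :=
  (C.caustic S n θ i)⁻¹ • C.caustic S n θ

/-- The caustic point with parameter `θ` lies in the `i`th chart and the parametrisation has zero
derivative there. -/
def IsCuspInChart (C : Ellipse) (S : Plane) (n : ℕ) (i : Fin 3) (θ : ℝ) : Prop :=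
  C.caustic S n θ i ≠ 0 ∧ HasDerivAt (C.causticInChart S n i) 0 θ

/-- Cusps of the caustic as a curve in the projective plane (points at infinity allowed), as a
subset of the parameter circle `[0, 2π)`. -/
def cusps (C : Ellipse) (S : Plane) (n : ℕ) : Set ℝ :=
  {θ ∈ Set.Ico 0 (2 * Real.pi) | ∃ i, C.IsCuspInChart S n i θ}

/-- Cusps of the caustic at points of the Euclidean plane. -/
def finiteCusps (C : Ellipse) (S : Plane) (n : ℕ) : Set ℝ :=
  {θ ∈ Set.Ico 0 (2 * Real.pi) | C.IsCuspInChart S n 2 θ}

/-- An ordinary (semicubical) cusp: in a chart the first derivative vanishes while the second and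
the third derivatives are linearly independent. -/
def IsOrdinaryCusp (C : Ellipse) (S : Plane) (n : ℕ) (θ : ℝ) : Prop :=
  ∃ i, C.IsCuspInChart S n i θ ∧
    LinearIndependent ℝ ![iteratedDeriv 2 (C.causticInChart S n i) θ,
      iteratedDeriv 3 (C.causticInChart S n i) θ]

end Ellipse

end Pool.Agent.P.MP_3225bd_gt
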