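import Pool.Agent.P.MP_3225bd_gt.Family
import Pool.Agent.P.MP_3225bd_gt.Defs

/-!
The geometric billiard map of an ellipse given by its foci agrees with the coordinate map.
-/

open scoped ContDiff RealInnerProductSpace
open Real

namespace Pool.Agent.P.MP_3225bd_gt

lemma dist_sq_plane (X Y : Plane) : dist X Y ^ 2 = (X 0 - Y 0) ^ 2 + (X 1 - Y 1) ^ 2 := by
  rw [EuclideanSpace.dist_eq, Real.sq_sqrt (by positivity)]
  simp [Fin.sum_univ_two, Real.dist_eq]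

lemma hasGradientAt_dist (F Y : Plane) (h : Y ≠ F) :
    HasGradientAt (fun X => dist X F) ((dist Y F)⁻¹ • (Y - F)) Y := by
  have h0 : ‖Y - F‖ ≠ 0 := by rwa [norm_ne_zero_iff, sub_ne_zero]
  have h1 : HasFDerivAt (fun X : Plane => ‖X - F‖ ^ 2) _ Y :=
    ((hasFDerivAt_id Y).sub_const F).norm_sq
  have h2 := h1.sqrt (by positivity)
  have e : (fun X : Plane => √(‖X - F‖ ^ 2)) = fun X => dist X F := by
    funext X; rw [Real.sqrt_sq (norm_nonneg _), dist_eq_norm]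
  rw [e] at h2
  rw [hasGradientAt_iff_hasFDerivAt]
  refine h2.congr_fderiv ?_
  ext w
  rw [Real.sqrt_sq (norm_nonneg _), dist_eq_norm]
  simp
  field_simp

namespace Ellipse

variable (C : Ellipse)

noncomputable def a : ℝ := C.d / 2
noncomputable def f₁ : ℝ := (C.F₁ 0 - C.F₂ 0) / 2
noncomputable def f₂ : ℝ := (C.F₁ 1 - C.F₂ 1) / 2
noncomputable def bb : ℝ := C.a ^ 2 - C.f₁ ^ 2 - C.f₂ ^ 2

lemma a_pos : 0 < C.a := by
  have := C.dist_lt
  have := dist_nonneg (x := C.F₁) (y := C.F₂)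
  unfold a; linarith

lemma bb_pos : 0 < C.bb := by
  have h1 := C.dist_lt
  have h2 := dist_nonneg (x := C.F₁) (y := C.F₂)
  have h3 := dist_sq_plane C.F₁ C.F₂
  unfold bb a f₁ f₂
  nlinarith

/-- the quadratic form of the ellipse -/
noncomputable def par : Par where
  α := (C.a ^ 2 - C.f₁ ^ 2) / (C.a ^ 2 * C.bb)
  β := -(C.f₁ * C.f₂) / (C.a ^ 2 * C.bb)
  γ := (C.a ^ 2 - C.f₂ ^ 2) / (C.a ^ 2 * C.bb)
  c₁ := (C.F₁ 0 + C.F₂ 0) / 2
  c₂ := (C.F₁ 1 + C.F₂ 1) / 2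
  hα := by
    have h1 := C.a_pos
    have h2 := C.bb_pos
    apply div_pos _ (by positivity)
    unfold bb at h2
    nlinarith
  hΔ := by
    have h1 := C.a_pos
    have h2 := C.bb_pos
    have : (C.a ^ 2 - C.f₁ ^ 2) / (C.a ^ 2 * C.bb) * ((C.a ^ 2 - C.f₂ ^ 2) / (C.a ^ 2 * C.bb))
        - (-(C.f₁ * C.f₂) / (C.a ^ 2 * C.bb)) ^ 2 = 1 / (C.a ^ 2 * C.bb) := by
      field_simp
      unfold bb
      ring
    rw [this]
    positivity

lemma qf_eq (X : Plane) : C.a ^ 2 * C.bb * (C.par.qf (X 0) (X 1) - 1)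
    = ((C.focalSum X / 2) ^ 2 - C.a ^ 2)
      * (C.a ^ 2 - ((dist X C.F₂ - dist X C.F₁) / 2) ^ 2) := by
  have h1 := C.a_pos.ne'
  have h2 := C.bb_pos.ne'
  have r1 := dist_sq_plane X C.F₁
  have r2 := dist_sq_plane X C.F₂
  have e : C.a ^ 2 * C.bb * (C.par.qf (X 0) (X 1) - 1)
      = C.a ^ 2 * ((X 0 - C.par.c₁) ^ 2 + (X 1 - C.par.c₂) ^ 2)
        - (C.f₁ * (X 0 - C.par.c₁) + C.f₂ * (X 1 - C.par.c₂)) ^ 2 - C.a ^ 2 * C.bb := by
    simp only [Par.qf, par]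
    field_simp
    ring
  have e1 : C.f₁ * (X 0 - C.par.c₁) + C.f₂ * (X 1 - C.par.c₂)
      = (dist X C.F₂ ^ 2 - dist X C.F₁ ^ 2) / 4 := by
    rw [r1, r2]; simp only [par, f₁, f₂]; ring
  have e2 : (X 0 - C.par.c₁) ^ 2 + (X 1 - C.par.c₂) ^ 2
      = (dist X C.F₂ ^ 2 + dist X C.F₁ ^ 2) / 2 - C.f₁ ^ 2 - C.f₂ ^ 2 := by
    rw [r1, r2]; simp only [par, f₁, f₂]; ring
  rw [e, e1, e2]
  unfold focalSum bb
  ring

lemma second_pos (X : Plane) : 0 < C.a ^ 2 - ((dist X C.F₂ - dist X C.F₁) / 2) ^ 2 := by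
  have h1 := C.dist_lt
  have h2 := abs_dist_sub_le C.F₂ C.F₁ X
  rw [dist_comm C.F₂ X, dist_comm C.F₁ X, dist_comm C.F₂ C.F₁, abs_le] at h2
  unfold a
  nlinarith [h2.1, h2.2]

lemma focal_nonneg (X : Plane) : 0 ≤ C.focalSum X := by
  unfold focalSum; positivity

lemma focal_le_iff (X : Plane) : C.focalSum X ≤ C.d ↔ C.par.qf (X 0) (X 1) ≤ 1 := by
  have h := C.qf_eq X
  have h1 := C.a_pos
  have h2 := C.bb_pos
  have h3 := C.second_pos X
  have h4 := C.focal_nonneg X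
  have h5 : 0 < C.a ^ 2 * C.bb := by positivity
  have hd : C.d = 2 * C.a := by unfold a; ring
  rw [hd]
  constructor
  · intro hle
    have : (C.focalSum X / 2) ^ 2 - C.a ^ 2 ≤ 0 := by nlinarith
    have := mul_nonpos_of_nonpos_of_nonneg this h3.le
    rw [← h] at this
    by_contra hc
    have : 0 < C.a ^ 2 * C.bb * (C.par.qf (X 0) (X 1) - 1) := mul_pos h5 (by linarith)
    linarith
  · intro hle
    by_contra hc
    have : 0 < (C.focalSum X / 2) ^ 2 - C.a ^ 2 := by nlinarith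
    have := mul_pos this h3
    rw [← h] at this
    have := mul_nonneg h5.le (sub_nonneg.mpr hle)
    nlinarith

lemma focal_lt_iff (X : Plane) : C.focalSum X < C.d ↔ C.par.qf (X 0) (X 1) < 1 := by
  have h := C.qf_eq X
  have h1 := C.a_pos
  have h2 := C.bb_pos
  have h3 := C.second_pos X
  have h4 := C.focal_nonneg X
  have h5 : 0 < C.a ^ 2 * C.bb := by positivity
  have hd : C.d = 2 * C.a := by unfold a; ring
  rw [hd]
  constructor
  · intro hle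
    have : (C.focalSum X / 2) ^ 2 - C.a ^ 2 < 0 := by nlinarith
    have := mul_neg_of_neg_of_pos this h3
    rw [← h] at this
    by_contra hc
    have : 0 ≤ C.a ^ 2 * C.bb * (C.par.qf (X 0) (X 1) - 1) := mul_nonneg h5.le (by linarith)
    linarith
  · intro hle
    by_contra hc
    have : 0 ≤ (C.focalSum X / 2) ^ 2 - C.a ^ 2 := by nlinarith
    have := mul_nonneg this h3.le
    rw [← h] at this
    have := mul_pos h5 (sub_pos.mpr hle)
    nlinarith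

lemma focal_eq_of {X : Plane} (h : C.par.qf (X 0) (X 1) = 1) : C.focalSum X = C.d := by
  apply le_antisymm ((C.focal_le_iff X).mpr h.le)
  by_contra hc
  push Not at hc
  have := (C.focal_lt_iff X).mp hc
  linarith

lemma mem_inside_iff (X : Plane) : X ∈ C.inside ↔ C.par.qf (X 0) (X 1) < 1 := C.focal_lt_iff X

/-- a geometric ray and a coordinate state describe the same ray -/
def Match (r : Plane × Plane) (s : St) : Prop :=
  r.1 0 = s.x ∧ r.1 1 = s.y ∧ r.2 0 = s.u ∧ r.2 1 = s.v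

lemma sSup_eq {r : Plane × Plane} {s : St} (hm : Match r s) (hs : C.par.Good s) :
    sSup {t : ℝ | C.focalSum (r.1 + t • r.2) ≤ C.d} = C.par.t s := by
  obtain ⟨m1, m2, m3, m4⟩ := hm
  apply IsGreatest.csSup_eq
  have e : ∀ τ : ℝ, C.focalSum (r.1 + τ • r.2) ≤ C.d ↔
      C.par.qf (s.x + τ * s.u) (s.y + τ * s.v) ≤ 1 := by
    intro τ
    rw [focal_le_iff]
    simp [m1, m2, m3, m4]
  constructor
  · rw [Set.mem_ofPred_eq, e]
    exact (Par.hit_on hs).le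
  · intro τ hτ
    rw [Set.mem_ofPred_eq, e] at hτ
    have h1 := Par.hit_on hs
    have h2 := Par.t_mul hs
    have h3 := Par.J_pos hs
    have h4 := Par.qA_pos (Q := C.par) hs.1
    have e2 : C.par.qf (s.x + τ * s.u) (s.y + τ * s.v) - C.par.qf (C.par.hx s) (C.par.hy s)
        = (τ - C.par.t s) * (C.par.qA s * (τ - C.par.t s)
          + 2 * (C.par.t s * C.par.qA s + C.par.qB s)) := by
      simp only [Par.qf, Par.hx, Par.hy, Par.qA, Par.qB]; ring
    by_contra hc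
    push Not at hc
    have h5 : 0 < τ - C.par.t s := by linarith
    have : 0 < (τ - C.par.t s) * (C.par.qA s * (τ - C.par.t s)
          + 2 * (C.par.t s * C.par.qA s + C.par.qB s)) := by
      apply mul_pos h5
      have := mul_pos h4 h5
      linarith
    linarith

lemma gradient_eq {Y : Plane} (h : C.par.qf (Y 0) (Y 1) = 1) :
    ∃ l : ℝ, l ≠ 0 ∧
      gradient C.focalSum Y 0
        = l * (C.par.α * (Y 0 - C.par.c₁) + C.par.β * (Y 1 - C.par.c₂)) ∧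
      gradient C.focalSum Y 1
        = l * (C.par.β * (Y 0 - C.par.c₁) + C.par.γ * (Y 1 - C.par.c₂)) := by
  have hf := C.focal_eq_of h
  have hlt := C.dist_lt
  have n1 : Y ≠ C.F₁ := by
    rintro rfl
    simp [focalSum] at hf
    linarith
  have n2 : Y ≠ C.F₂ := by
    rintro rfl
    simp [focalSum, dist_comm] at hf
    linarith
  have g1 := hasGradientAt_dist C.F₁ Y n1
  have g2 := hasGradientAt_dist C.F₂ Y n2
  have g : HasGradientAt C.focalSum
      ((dist Y C.F₁)⁻¹ • (Y - C.F₁) + (dist Y C.F₂)⁻¹ • (Y - C.F₂)) Y := by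
    rw [hasGradientAt_iff_hasFDerivAt] at g1 g2 ⊢
    rw [map_add]
    exact g1.add g2
  have p1 : dist Y C.F₁ ≠ 0 := dist_ne_zero.mpr n1
  have p2 : dist Y C.F₂ ≠ 0 := dist_ne_zero.mpr n2
  have h1 := C.a_pos.ne'
  have h2 := C.bb_pos.ne'
  have r1 := dist_sq_plane Y C.F₁
  have r2 := dist_sq_plane Y C.F₂
  have hs : dist Y C.F₁ + dist Y C.F₂ = 2 * C.a := by
    unfold a; unfold focalSum at hf; linarith
  have e1 : C.f₁ * (Y 0 - C.par.c₁) + C.f₂ * (Y 1 - C.par.c₂)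
      = C.a * (dist Y C.F₂ - dist Y C.F₁) / 2 := by
    have : C.f₁ * (Y 0 - C.par.c₁) + C.f₂ * (Y 1 - C.par.c₂)
      = (dist Y C.F₂ ^ 2 - dist Y C.F₁ ^ 2) / 4 := by
      rw [r1, r2]; simp only [par, f₁, f₂]; ring
    rw [this]
    linear_combination (dist Y C.F₂ - dist Y C.F₁) / 4 * hs
  have y1 : Y 0 - C.F₁ 0 = (Y 0 - C.par.c₁) - C.f₁ := by simp only [par, f₁]; ring
  have y2 : Y 0 - C.F₂ 0 = (Y 0 - C.par.c₁) + C.f₁ := by simp only [par, f₁]; ring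
  have y3 : Y 1 - C.F₁ 1 = (Y 1 - C.par.c₂) - C.f₂ := by simp only [par, f₂]; ring
  have y4 : Y 1 - C.F₂ 1 = (Y 1 - C.par.c₂) + C.f₂ := by simp only [par, f₂]; ring
  have eα : C.par.α = (C.a ^ 2 - C.f₁ ^ 2) / (C.a ^ 2 * C.bb) := rfl
  have eβ : C.par.β = -(C.f₁ * C.f₂) / (C.a ^ 2 * C.bb) := rfl
  have eγ : C.par.γ = (C.a ^ 2 - C.f₂ ^ 2) / (C.a ^ 2 * C.bb) := rfl
  refine ⟨2 * C.a * C.bb / (dist Y C.F₁ * dist Y C.F₂), by positivity, ?_, ?_⟩
  · rw [g.gradient]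
    simp only [PiLp.add_apply, PiLp.smul_apply, PiLp.sub_apply, smul_eq_mul]
    rw [y1, y2, eα, eβ]
    field_simp
    linear_combination (C.a * (Y 0 - C.par.c₁)) * hs + 2 * C.f₁ * e1
  · rw [g.gradient]
    simp only [PiLp.add_apply, PiLp.smul_apply, PiLp.sub_apply, smul_eq_mul]
    rw [y3, y4, eβ, eγ]
    field_simp
    linear_combination (C.a * (Y 1 - C.par.c₂)) * hs + 2 * C.f₂ * e1

lemma bounce_match {r : Plane × Plane} {s : St} (hm : Match r s) (hs : C.par.Good s) :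
    Match (C.bounce r) (C.par.F s) := by
  have ht := C.sSup_eq hm hs
  obtain ⟨m1, m2, m3, m4⟩ := hm
  have h0 : C.hit r.1 r.2 0 = C.par.hx s := by
    unfold hit; rw [ht]; simp [m1, m3, Par.hx]
  have h1 : C.hit r.1 r.2 1 = C.par.hy s := by
    unfold hit; rw [ht]; simp [m2, m4, Par.hy]
  obtain ⟨l, hl, g0, g1⟩ := C.gradient_eq (Y := C.hit r.1 r.2)
    (by rw [h0, h1]; exact Par.hit_on hs)
  rw [h0, h1] at g0 g1
  change _ = l * C.par.N₁ s at g0
  change _ = l * C.par.N₂ s at g1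
  have hρ := (Par.ρ_pos hs).ne'
  have hJ := Par.NJ hs
  have hρ' : C.par.ρ s = C.par.N₁ s ^ 2 + C.par.N₂ s ^ 2 := rfl
  have en : ‖gradient C.focalSum (C.hit r.1 r.2)‖ ^ 2 = l ^ 2 * C.par.ρ s := by
    rw [EuclideanSpace.norm_sq_eq]
    simp only [Fin.sum_univ_two, Real.norm_eq_abs, sq_abs, g0, g1, hρ']
    ring
  have ei : ⟪gradient C.focalSum (C.hit r.1 r.2), r.2⟫ = l * C.par.J s := by
    simp only [PiLp.inner_apply, Fin.sum_univ_two, g0, g1, m3, m4, hJ]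
    simp
    ring
  refine ⟨h0, h1, ?_, ?_⟩
  · simp only [bounce, Submodule.reflection_orthogonal_apply, Submodule.reflection_singleton_apply]
    erw [en, ei]
    simp only [PiLp.neg_apply, PiLp.sub_apply, PiLp.smul_apply, smul_eq_mul, g0, m3, Par.F_u,
      nsmul_eq_mul]
    field_simp
    push_cast
    ring
  · simp only [bounce, Submodule.reflection_orthogonal_apply, Submodule.reflection_singleton_apply]
    erw [en, ei]
    simp only [PiLp.neg_apply, PiLp.sub_apply, PiLp.smul_apply, smul_eq_mul, g1, m4, Par.F_v,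
      nsmul_eq_mul]
    field_simp
    push_cast
    ring

lemma ray_match {S : Plane} (hS : S ∈ C.inside) (n : ℕ) (θ : ℝ) :
    Match (C.ray S n θ) (C.par.orb n (S 0) (S 1) θ) := by
  rw [mem_inside_iff] at hS
  induction n with
  | zero => exact ⟨rfl, rfl, by simp [ray, Par.orb, init], by simp [ray, Par.orb, init]⟩
  | succ n ih =>
    rw [Par.orb_succ]
    unfold ray
    rw [Function.iterate_succ_apply']
    exact C.bounce_match ih (Par.orb_good hS n θ)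

lemma line_eq {S : Plane} (hS : S ∈ C.inside) (n : ℕ) :
    C.line S n = fun θ => ![C.par.V n (S 0) (S 1) θ, -C.par.U n (S 0) (S 1) θ,
      C.par.Y n (S 0) (S 1) θ * C.par.U n (S 0) (S 1) θ
        - C.par.X n (S 0) (S 1) θ * C.par.V n (S 0) (S 1) θ] := by
  funext θ
  obtain ⟨m1, m2, m3, m4⟩ := C.ray_match hS n θ
  unfold line
  rw [m1, m2, m3, m4]

lemma sq_add_sq_zero {p q : ℝ} (h : p ^ 2 + q ^ 2 = 0) : p = 0 ∧ q = 0 := by
  constructor <;> nlinarith [sq_nonneg p, sq_nonneg q]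

lemma focus_alg {A B f₁ f₂ y₁ y₂ μ : ℝ} (hA : 0 < A) (hB : 0 < B) (hAB : B = A - f₁ ^ 2 - f₂ ^ 2)
    (hμ : μ = A * B - A * (y₁ ^ 2 + y₂ ^ 2) + (f₁ * y₁ + f₂ * y₂) ^ 2) (hμ0 : 0 < μ)
    (h1 : (A * y₂ - (f₁ * y₁ + f₂ * y₂) * f₂) ^ 2 - (A * y₁ - (f₁ * y₁ + f₂ * y₂) * f₁) ^ 2
      + μ * (f₁ ^ 2 - f₂ ^ 2) = 0)
    (h2 : (A * y₁ - (f₁ * y₁ + f₂ * y₂) * f₁) * (A * y₂ - (f₁ * y₁ + f₂ * y₂) * f₂)
      - μ * (f₁ * f₂) = 0) :
    (y₁ = f₁ ∧ y₂ = f₂) ∨ (y₁ = -f₁ ∧ y₂ = -f₂) := by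
  obtain ⟨p, hp⟩ : ∃ p, p = f₁ * y₁ + f₂ * y₂ := ⟨_, rfl⟩
  rw [← hp] at h1 h2 hμ
  obtain ⟨z₁, hz₁⟩ : ∃ z, z = A * y₁ - p * f₁ := ⟨_, rfl⟩
  obtain ⟨z₂, hz₂⟩ : ∃ z, z = A * y₂ - p * f₂ := ⟨_, rfl⟩
  rw [← hz₁, ← hz₂] at h1 h2
  have e1 : (z₁ * f₁ + z₂ * f₂) * (z₁ * f₂ - z₂ * f₁) = 0 := by
    linear_combination (-(f₁ * f₂)) * h1 - (f₁ ^ 2 - f₂ ^ 2) * h2
  have e2 : (z₁ * f₁ + z₂ * f₂) ^ 2 - (z₁ * f₂ - z₂ * f₁) ^ 2 = μ * (f₁ ^ 2 + f₂ ^ 2) ^ 2 := by
    linear_combination (-(f₁ ^ 2 - f₂ ^ 2)) * h1 + 4 * f₁ * f₂ * h2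
  have e3 : z₁ * f₂ - z₂ * f₁ = 0 := by
    rcases mul_eq_zero.mp e1 with h | h
    · rw [h] at e2
      have : 0 ≤ μ * (f₁ ^ 2 + f₂ ^ 2) ^ 2 := by positivity
      nlinarith [sq_nonneg (z₁ * f₂ - z₂ * f₁)]
    · exact h
  have e4 : y₁ * f₂ - y₂ * f₁ = 0 := by
    apply mul_left_cancel₀ hA.ne'
    rw [hz₁, hz₂] at e3
    linear_combination e3
  by_cases hF : f₁ ^ 2 + f₂ ^ 2 = 0
  · obtain ⟨a1, a2⟩ := sq_add_sq_zero hF
    subst a1 a2
    have b1 : z₂ ^ 2 = z₁ ^ 2 := by linarith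
    have b2 : z₁ * z₂ = 0 := by linarith
    have c1 : z₁ = 0 := by
      rcases mul_eq_zero.mp b2 with h | h
      · exact h
      · rw [h] at b1; nlinarith
    have c2 : z₂ = 0 := by rw [c1] at b1; nlinarith
    left
    constructor
    · apply mul_left_cancel₀ hA.ne'; linarith
    · apply mul_left_cancel₀ hA.ne'; linarith
  · obtain ⟨G, hG⟩ : ∃ G, G = f₁ ^ 2 + f₂ ^ 2 := ⟨_, rfl⟩
    rw [← hG] at e2 hF
    have l1 : (y₁ ^ 2 + y₂ ^ 2) * G = p ^ 2 := by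
      rw [hG, hp]; linear_combination (y₁ * f₂ - y₂ * f₁) * e4
    have l2 : z₁ * f₁ + z₂ * f₂ = B * p := by
      rw [hz₁, hz₂, hAB]; linear_combination (-A) * hp
    rw [l2, e3] at e2
    have l3 : p ^ 2 = G ^ 2 := by
      apply mul_left_cancel₀ (mul_pos hA hB).ne'
      have hBG : B = A - G := by rw [hG]; linarith
      rw [hμ] at e2
      linear_combination e2 - A * G * l1 - (B - G) * p ^ 2 * hBG
    have l4 : (p - G) * (p + G) = 0 := by linear_combination l3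
    rcases mul_eq_zero.mp l4 with h | h
    · left
      have : ((y₁ - f₁) ^ 2 + (y₂ - f₂) ^ 2) * G = 0 := by
        linear_combination l1 + 2 * G * hp - G * hG + (p - G) * h
      have := (mul_eq_zero.mp this).resolve_right hF
      obtain ⟨k1, k2⟩ := sq_add_sq_zero this
      constructor <;> linarith
    · right
      have : ((y₁ + f₁) ^ 2 + (y₂ + f₂) ^ 2) * G = 0 := by
        linear_combination l1 - 2 * G * hp - G * hG + (p + G) * h
      have := (mul_eq_zero.mp this).resolve_right hF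
      obtain ⟨k1, k2⟩ := sq_add_sq_zero this
      constructor <;> linarith

/-- the conserved quantity is constant on the pencil only if the source is a focus -/
lemma focus_of_scalar {S : Plane} (hS : S ∈ C.inside)
    (h1 : C.par.mr (S 0) (S 1) - C.par.mp (S 0) (S 1) = 0) (h2 : 2 * C.par.mq (S 0) (S 1) = 0) :
    S = C.F₁ ∨ S = C.F₂ := by
  rw [mem_inside_iff] at hS
  have ha := C.a_pos
  have hb := C.bb_pos
  have hK : 0 < C.a ^ 2 * C.bb := by positivity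
  have eα : C.par.α = (C.a ^ 2 - C.f₁ ^ 2) / (C.a ^ 2 * C.bb) := rfl
  have eβ : C.par.β = -(C.f₁ * C.f₂) / (C.a ^ 2 * C.bb) := rfl
  have eγ : C.par.γ = (C.a ^ 2 - C.f₂ ^ 2) / (C.a ^ 2 * C.bb) := rfl
  have key := focus_alg (A := C.a ^ 2) (B := C.bb) (f₁ := C.f₁) (f₂ := C.f₂)
    (y₁ := S 0 - C.par.c₁) (y₂ := S 1 - C.par.c₂)
    (μ := C.a ^ 2 * C.bb * (1 - C.par.qf (S 0) (S 1))) (by positivity) hb rfl
    (by simp only [Par.qf, eα, eβ, eγ]; field_simp; ring)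
    (mul_pos hK (by linarith))
    (by
      have : (C.a ^ 2 * C.bb) ^ 2 * (C.par.mr (S 0) (S 1) - C.par.mp (S 0) (S 1)) = 0 := by
        rw [h1]; ring
      rw [← this]
      simp only [Par.mr, Par.mp, Par.a₁, Par.a₂, eα, eβ, eγ]
      field_simp
      ring)
    (by
      have : (C.a ^ 2 * C.bb) ^ 2 * (2 * C.par.mq (S 0) (S 1)) / 2 = 0 := by
        rw [h2]; ring
      rw [← this]
      simp only [Par.mq, Par.a₁, Par.a₂, eα, eβ, eγ]
      field_simp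
      ring)
  simp only [par, f₁, f₂] at key
  rcases key with ⟨k1, k2⟩ | ⟨k1, k2⟩
  · left
    ext i
    fin_cases i
    · change S 0 = C.F₁ 0
      linarith
    · change S 1 = C.F₁ 1
      linarith
  · right
    ext i
    fin_cases i
    · change S 0 = C.F₂ 0
      linarith
    · change S 1 = C.F₂ 1
      linarith

end Ellipse

end Pool.Agent.P.MP_3225bd_gt
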