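import Mathlib

/-!
Coordinate level computations for one parameter families of oriented lines and their
behaviour under a reflection in an ellipse.
-/

open scoped ContDiff

namespace Pool.Agent.P.MP_3225bd_gt

/-- angular velocity of the direction field -/
noncomputable def om (u v : ℝ → ℝ) (θ : ℝ) : ℝ := u θ * deriv v θ - v θ * deriv u θ

/-- normal component of the velocity of the base point -/
noncomputable def gg (x y u v : ℝ → ℝ) (θ : ℝ) : ℝ := deriv x θ * v θ - deriv y θ * u θ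

/-- tangential component of the velocity of the base point -/
noncomputable def hh (x y u v : ℝ → ℝ) (θ : ℝ) : ℝ := deriv x θ * u θ + deriv y θ * v θ

/-- the Wronskian whose zeros are the cusps -/
noncomputable def KK (x y u v : ℝ → ℝ) (θ : ℝ) : ℝ :=
  om u v θ * deriv (gg x y u v) θ - deriv (om u v) θ * gg x y u v θ + om u v θ ^ 2 * hh x y u v θ

lemma sm_deriv {f : ℝ → ℝ} (hf : ContDiff ℝ ∞ f) : ContDiff ℝ ∞ (deriv f) :=
  (contDiff_infty_iff_deriv.mp hf).2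

lemma sm_has {f : ℝ → ℝ} (hf : ContDiff ℝ ∞ f) (θ : ℝ) : HasDerivAt f (deriv f θ) θ :=
  ((contDiff_infty_iff_deriv.mp hf).1 θ).hasDerivAt

lemma sm_om {u v : ℝ → ℝ} (hu : ContDiff ℝ ∞ u) (hv : ContDiff ℝ ∞ v) :
    ContDiff ℝ ∞ (om u v) := by
  have h1 := sm_deriv hu
  have h2 := sm_deriv hv
  unfold om
  fun_prop

lemma sm_gg {x y u v : ℝ → ℝ} (hx : ContDiff ℝ ∞ x) (hy : ContDiff ℝ ∞ y)
    (hu : ContDiff ℝ ∞ u) (hv : ContDiff ℝ ∞ v) : ContDiff ℝ ∞ (gg x y u v) := by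
  have h1 := sm_deriv hx
  have h2 := sm_deriv hy
  unfold gg
  fun_prop

lemma sm_hh {x y u v : ℝ → ℝ} (hx : ContDiff ℝ ∞ x) (hy : ContDiff ℝ ∞ y)
    (hu : ContDiff ℝ ∞ u) (hv : ContDiff ℝ ∞ v) : ContDiff ℝ ∞ (hh x y u v) := by
  have h1 := sm_deriv hx
  have h2 := sm_deriv hy
  unfold hh
  fun_prop

lemma sm_KK {x y u v : ℝ → ℝ} (hx : ContDiff ℝ ∞ x) (hy : ContDiff ℝ ∞ y)
    (hu : ContDiff ℝ ∞ u) (hv : ContDiff ℝ ∞ v) : ContDiff ℝ ∞ (KK x y u v) := by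
  have h1 := sm_om hu hv
  have h2 := sm_gg hx hy hu hv
  have h3 := sm_hh hx hy hu hv
  have h4 := sm_deriv h1
  have h5 := sm_deriv h2
  unfold KK
  fun_prop

lemma unit_orth {u v : ℝ → ℝ} (hu : ContDiff ℝ ∞ u) (hv : ContDiff ℝ ∞ v)
    (h1 : ∀ θ, u θ ^ 2 + v θ ^ 2 = 1) (θ : ℝ) : u θ * deriv u θ + v θ * deriv v θ = 0 := by
  have h := ((sm_has hu θ).pow 2).add ((sm_has hv θ).pow 2)
  have hc : HasDerivAt (fun θ => u θ ^ 2 + v θ ^ 2) 0 θ := by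
    have : (fun θ => u θ ^ 2 + v θ ^ 2) = fun _ => (1 : ℝ) := funext h1
    rw [this]; exact hasDerivAt_const _ _
  have := h.unique hc
  simp at this
  linarith

lemma unit_du {u v : ℝ → ℝ} (hu : ContDiff ℝ ∞ u) (hv : ContDiff ℝ ∞ v)
    (h1 : ∀ θ, u θ ^ 2 + v θ ^ 2 = 1) (θ : ℝ) : deriv u θ = -(om u v θ * v θ) := by
  have h := unit_orth hu hv h1 θ
  unfold om
  linear_combination (u θ) * h - deriv u θ * h1 θ

lemma unit_dv {u v : ℝ → ℝ} (hu : ContDiff ℝ ∞ u) (hv : ContDiff ℝ ∞ v)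
    (h1 : ∀ θ, u θ ^ 2 + v θ ^ 2 = 1) (θ : ℝ) : deriv v θ = om u v θ * u θ := by
  have h := unit_orth hu hv h1 θ
  unfold om
  linear_combination (v θ) * h - deriv v θ * h1 θ

/-- sliding the base point along the line -/
lemma slide_gg {x y u v t : ℝ → ℝ} (hx : ContDiff ℝ ∞ x) (hy : ContDiff ℝ ∞ y)
    (hu : ContDiff ℝ ∞ u) (hv : ContDiff ℝ ∞ v) (ht : ContDiff ℝ ∞ t) (θ : ℝ) :
    gg (fun θ => x θ + t θ * u θ) (fun θ => y θ + t θ * v θ) u v θ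
      = gg x y u v θ - t θ * om u v θ := by
  have e1 := ((sm_has hx θ).add ((sm_has ht θ).mul (sm_has hu θ))).deriv
  have e2 := ((sm_has hy θ).add ((sm_has ht θ).mul (sm_has hv θ))).deriv
  unfold gg om
  erw [e1, e2]
  ring

lemma slide_hh {x y u v t : ℝ → ℝ} (hx : ContDiff ℝ ∞ x) (hy : ContDiff ℝ ∞ y)
    (hu : ContDiff ℝ ∞ u) (hv : ContDiff ℝ ∞ v) (ht : ContDiff ℝ ∞ t)
    (h1 : ∀ θ, u θ ^ 2 + v θ ^ 2 = 1) (θ : ℝ) :
    hh (fun θ => x θ + t θ * u θ) (fun θ => y θ + t θ * v θ) u v θ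
      = hh x y u v θ + deriv t θ := by
  have e1 := ((sm_has hx θ).add ((sm_has ht θ).mul (sm_has hu θ))).deriv
  have e2 := ((sm_has hy θ).add ((sm_has ht θ).mul (sm_has hv θ))).deriv
  have h := unit_orth hu hv h1 θ
  unfold hh
  erw [e1, e2]
  linear_combination (deriv t θ) * h1 θ + t θ * h

lemma slide_KK {x y u v t : ℝ → ℝ} (hx : ContDiff ℝ ∞ x) (hy : ContDiff ℝ ∞ y)
    (hu : ContDiff ℝ ∞ u) (hv : ContDiff ℝ ∞ v) (ht : ContDiff ℝ ∞ t)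
    (h1 : ∀ θ, u θ ^ 2 + v θ ^ 2 = 1) (θ : ℝ) :
    KK (fun θ => x θ + t θ * u θ) (fun θ => y θ + t θ * v θ) u v θ = KK x y u v θ := by
  have e : gg (fun θ => x θ + t θ * u θ) (fun θ => y θ + t θ * v θ) u v
      = fun θ => gg x y u v θ - t θ * om u v θ := funext (slide_gg hx hy hu hv ht)
  have e2 := ((sm_has (sm_gg hx hy hu hv) θ).sub
    ((sm_has ht θ).mul (sm_has (sm_om hu hv) θ))).deriv
  unfold KK
  rw [slide_hh hx hy hu hv ht h1, e]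
  erw [e2]
  ring

/-- The reflection lemma. -/
lemma reflect_jump {α β γ c₁ c₂ : ℝ} {X Y u v U V J N₁ N₂ ρ : ℝ → ℝ}
    (hX : ContDiff ℝ ∞ X) (hY : ContDiff ℝ ∞ Y)
    (hu : ContDiff ℝ ∞ u) (hv : ContDiff ℝ ∞ v)
    (hN₁ : ∀ θ, N₁ θ = α * (X θ - c₁) + β * (Y θ - c₂))
    (hN₂ : ∀ θ, N₂ θ = β * (X θ - c₁) + γ * (Y θ - c₂))
    (hρ : ∀ θ, ρ θ = N₁ θ ^ 2 + N₂ θ ^ 2)
    (hq : ∀ θ, α * (X θ - c₁) ^ 2 + 2 * β * (X θ - c₁) * (Y θ - c₂) + γ * (Y θ - c₂) ^ 2 = 1)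
    (h1 : ∀ θ, u θ ^ 2 + v θ ^ 2 = 1)
    (hJ : ∀ θ, J θ = N₁ θ * u θ + N₂ θ * v θ) (hJ0 : ∀ θ, J θ ≠ 0)
    (hU : ∀ θ, U θ = u θ - 2 * J θ / ρ θ * N₁ θ) (hV : ∀ θ, V θ = v θ - 2 * J θ / ρ θ * N₂ θ) :
    (∀ θ, gg X Y U V θ = -gg X Y u v θ) ∧
    (∀ θ, om U V θ = -om u v θ - 2 * (α * γ - β ^ 2) * gg X Y u v θ / (J θ * ρ θ)) ∧
    (∀ θ, KK X Y U V θ = KK X Y u v θ
      + 6 * (α * γ - β ^ 2) * (gg X Y u v θ / J θ) ^ 2 / ρ θ * deriv J θ) := by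
  have hρ0 : ∀ θ, ρ θ ≠ 0 := by
    intro θ h0
    apply hJ0 θ
    rw [hρ] at h0
    have a1 : N₁ θ = 0 := by nlinarith [sq_nonneg (N₁ θ), sq_nonneg (N₂ θ)]
    have a2 : N₂ θ = 0 := by nlinarith [sq_nonneg (N₁ θ), sq_nonneg (N₂ θ)]
    rw [hJ, a1, a2]; ring
  have eN₁ : N₁ = fun θ => α * (X θ - c₁) + β * (Y θ - c₂) := funext hN₁
  have eN₂ : N₂ = fun θ => β * (X θ - c₁) + γ * (Y θ - c₂) := funext hN₂
  have sN₁ : ContDiff ℝ ∞ N₁ := by rw [eN₁]; fun_prop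
  have sN₂ : ContDiff ℝ ∞ N₂ := by rw [eN₂]; fun_prop
  have eρ : ρ = fun θ => N₁ θ ^ 2 + N₂ θ ^ 2 := funext hρ
  have sρ : ContDiff ℝ ∞ ρ := by rw [eρ]; fun_prop
  have eJ : J = fun θ => N₁ θ * u θ + N₂ θ * v θ := funext hJ
  have sJ : ContDiff ℝ ∞ J := by rw [eJ]; fun_prop
  have eU : U = fun θ => u θ - 2 * J θ / ρ θ * N₁ θ := funext hU
  have eV : V = fun θ => v θ - 2 * J θ / ρ θ * N₂ θ := funext hV
  have sk : ContDiff ℝ ∞ (fun θ => 2 * J θ / ρ θ) := ContDiff.div (by fun_prop) sρ hρ0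
  have sU : ContDiff ℝ ∞ U := by rw [eU]; fun_prop
  have sV : ContDiff ℝ ∞ V := by rw [eV]; fun_prop
  have h1' : ∀ θ, U θ ^ 2 + V θ ^ 2 = 1 := by
    intro θ
    have := hρ0 θ
    rw [hU, hV]
    field_simp
    rw [hJ, hρ]
    linear_combination (N₁ θ ^ 2 + N₂ θ ^ 2) ^ 2 * h1 θ
  -- derivatives of the normal
  have dN₁ : ∀ θ, deriv N₁ θ = α * deriv X θ + β * deriv Y θ := by
    intro θ
    rw [eN₁]
    exact ((((sm_has hX θ).sub_const c₁).const_mul α).add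
      (((sm_has hY θ).sub_const c₂).const_mul β)).deriv
  have dN₂ : ∀ θ, deriv N₂ θ = β * deriv X θ + γ * deriv Y θ := by
    intro θ
    rw [eN₂]
    exact ((((sm_has hX θ).sub_const c₁).const_mul β).add
      (((sm_has hY θ).sub_const c₂).const_mul γ)).deriv
  -- tangency
  have tang : ∀ θ, N₁ θ * deriv X θ + N₂ θ * deriv Y θ = 0 := by
    intro θ
    have hx' := (sm_has hX θ).sub_const c₁
    have hy' := (sm_has hY θ).sub_const c₂
    have h := (((hx'.pow 2).const_mul α).add ((hx'.const_mul (2 * β)).mul hy')).add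
      ((hy'.pow 2).const_mul γ)
    have hc : HasDerivAt (fun θ => α * (X θ - c₁) ^ 2 + 2 * β * (X θ - c₁) * (Y θ - c₂)
        + γ * (Y θ - c₂) ^ 2) 0 θ := by
      have : (fun θ => α * (X θ - c₁) ^ 2 + 2 * β * (X θ - c₁) * (Y θ - c₂)
        + γ * (Y θ - c₂) ^ 2) = fun _ => (1 : ℝ) := funext hq
      rw [this]; exact hasDerivAt_const _ _
    have := h.unique hc
    simp at this
    rw [hN₁, hN₂]
    linarith
  obtain ⟨σ, hσ⟩ : ∃ σ : ℝ → ℝ, σ = fun θ => (N₁ θ * deriv Y θ - N₂ θ * deriv X θ) / ρ θ :=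
    ⟨_, rfl⟩
  have sσ : ContDiff ℝ ∞ σ := by
    have a1 := sm_deriv hX
    have a2 := sm_deriv hY
    rw [hσ]
    exact ContDiff.div (by fun_prop) sρ hρ0
  have dX : ∀ θ, deriv X θ = -(σ θ * N₂ θ) := by
    intro θ
    have := hρ0 θ
    rw [hσ]
    field_simp
    rw [hρ]
    linear_combination N₁ θ * tang θ
  have dY : ∀ θ, deriv Y θ = σ θ * N₁ θ := by
    intro θ
    have := hρ0 θ
    rw [hσ]
    field_simp
    rw [hρ]
    linear_combination N₂ θ * tang θ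
  have hNN : ∀ θ, γ * N₁ θ ^ 2 - 2 * β * N₁ θ * N₂ θ + α * N₂ θ ^ 2 = α * γ - β ^ 2 := by
    intro θ
    rw [hN₁, hN₂]
    linear_combination (α * γ - β ^ 2) * hq θ
  have cross : ∀ θ, N₁ θ * deriv N₂ θ - N₂ θ * deriv N₁ θ = (α * γ - β ^ 2) * σ θ := by
    intro θ
    rw [dN₁, dN₂, dX, dY]
    linear_combination σ θ * hNN θ
  have hg : ∀ θ, gg X Y u v θ = -(σ θ * J θ) := by
    intro θ
    unfold gg
    rw [dX, dY, hJ]; ring
  have hg' : ∀ θ, gg X Y U V θ = σ θ * J θ := by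
    intro θ
    have := hρ0 θ
    unfold gg
    rw [dX, dY, hU, hV]
    field_simp
    rw [hJ, hρ]; ring
  have hh1 : ∀ θ, hh X Y u v θ = σ θ * (N₁ θ * v θ - N₂ θ * u θ) := by
    intro θ
    unfold hh
    rw [dX, dY]; ring
  have hh2 : ∀ θ, hh X Y U V θ = σ θ * (N₁ θ * v θ - N₂ θ * u θ) := by
    intro θ
    unfold hh
    rw [dX, dY, hU, hV]; ring
  have hom : ∀ θ, om U V θ = -om u v θ + 2 * (α * γ - β ^ 2) * σ θ / ρ θ := by
    intro θ
    have hL : (fun θ => N₁ θ * V θ - N₂ θ * U θ) = fun θ => N₁ θ * v θ - N₂ θ * u θ := by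
      funext θ; rw [hU, hV]; ring
    have d1 := ((sm_has sN₁ θ).mul (sm_has sV θ)).sub ((sm_has sN₂ θ).mul (sm_has sU θ))
    have d2 := ((sm_has sN₁ θ).mul (sm_has hv θ)).sub ((sm_has sN₂ θ).mul (sm_has hu θ))
    have d1' : HasDerivAt (fun θ => N₁ θ * V θ - N₂ θ * U θ) _ θ := d1
    rw [hL] at d1'
    have e := d1'.unique d2
    rw [unit_du hu hv h1, unit_dv hu hv h1, unit_du sU sV h1', unit_dv sU sV h1'] at e
    have a0 := hρ0 θ
    have b0 := hJ0 θ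
    have c := cross θ
    have eJ' : N₁ θ * U θ + N₂ θ * V θ = -J θ := by
      rw [hU, hV]; field_simp; rw [hJ, hρ]; ring
    have e3 : (om U V θ + om u v θ) * J θ = 2 * J θ / ρ θ * ((α * γ - β ^ 2) * σ θ) := by
      rw [← c]
      have hU' := hU θ
      have hV' := hV θ
      have hJ' := hJ θ
      linear_combination (-1 : ℝ) * e + om U V θ * eJ' + om u v θ * hJ'
        + deriv N₁ θ * hV' - deriv N₂ θ * hU'
    have e4 : om U V θ + om u v θ = 2 * (α * γ - β ^ 2) * σ θ / ρ θ := by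
      apply mul_right_cancel₀ b0
      rw [e3]; ring
    linarith
  have dρ : ∀ θ, deriv ρ θ = 2 * N₁ θ * deriv N₁ θ + 2 * N₂ θ * deriv N₂ θ := by
    intro θ
    have := (((sm_has sN₁ θ).pow 2).add ((sm_has sN₂ θ).pow 2)).deriv
    rw [eρ]
    erw [this]
    simp
  have dJ : ∀ θ, deriv J θ * ρ θ = deriv ρ θ / 2 * J θ
      + ((α * γ - β ^ 2) * σ θ - om u v θ * ρ θ) * (N₁ θ * v θ - N₂ θ * u θ) := by
    intro θ
    have d := (((sm_has sN₁ θ).mul (sm_has hu θ)).add ((sm_has sN₂ θ).mul (sm_has hv θ))).deriv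
    have d' : deriv J θ = deriv N₁ θ * u θ + N₁ θ * deriv u θ
        + (deriv N₂ θ * v θ + N₂ θ * deriv v θ) := by rw [eJ]; exact d
    rw [d', dρ, ← cross, unit_du hu hv h1, unit_dv hu hv h1, hJ, hρ]
    ring
  refine ⟨fun θ => by rw [hg, hg']; ring, fun θ => ?_, fun θ => ?_⟩
  · have a0 := hρ0 θ
    have b0 := hJ0 θ
    rw [hom, hg]
    field_simp
    ring
  · have a0 := hρ0 θ
    have b0 := hJ0 θ
    have eg : gg X Y u v = fun θ => -(σ θ * J θ) := funext hg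
    have eg' : gg X Y U V = fun θ => σ θ * J θ := funext hg'
    have eom : om U V = fun θ => -om u v θ + 2 * (α * γ - β ^ 2) * σ θ / ρ θ := funext hom
    have d1 := (((sm_has sσ θ).mul (sm_has sJ θ)).neg).deriv
    have d2 := ((sm_has sσ θ).mul (sm_has sJ θ)).deriv
    have d3 := ((sm_has (sm_om hu hv) θ).neg.add
      (((sm_has sσ θ).const_mul (2 * (α * γ - β ^ 2))).div (sm_has sρ θ) a0)).deriv
    have dJ' := dJ θ
    unfold KK
    rw [hh1, hh2, eg, eg', eom]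
    erw [d1, d2, d3]
    simp only
    field_simp
    linear_combination (-4 * (α * γ - β ^ 2) * σ θ ^ 2) * dJ'

end Pool.Agent.P.MP_3225bd_gt
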