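import Pool.Agent.P.MP_3225bd_gt.Core

/-!
The envelope of a smooth family of oriented lines in homogeneous coordinates.
-/

open scoped ContDiff Topology

namespace Pool.Agent.P.MP_3225bd_gt

section

variable (x y u v : ℝ → ℝ)

/-- line coordinates -/
def lin (θ : ℝ) : Fin 3 → ℝ := ![v θ, -u θ, y θ * u θ - x θ * v θ]
def pa (θ : ℝ) : Fin 3 → ℝ := ![x θ, y θ, 1]
def pb (θ : ℝ) : Fin 3 → ℝ := ![u θ, v θ, 0]
def pn (θ : ℝ) : Fin 3 → ℝ := ![-v θ, u θ, 0]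
/-- envelope -/
noncomputable def env (θ : ℝ) : Fin 3 → ℝ := om u v θ • pa x y θ + gg x y u v θ • pb u v θ
def pW (i : Fin 3) (θ : ℝ) : Fin 3 → ℝ := pa x y θ i • pb u v θ - pb u v θ i • pa x y θ

end

variable {x y u v : ℝ → ℝ}

lemma hasDerivAt_vec {f g h : ℝ → ℝ} {f' g' h' θ : ℝ} (hf : HasDerivAt f f' θ)
    (hg : HasDerivAt g g' θ) (hh : HasDerivAt h h' θ) :
    HasDerivAt (fun θ => ![f θ, g θ, h θ]) ![f', g', h'] θ := by
  rw [hasDerivAt_pi]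
  intro i
  fin_cases i
  · exact hf
  · exact hg
  · exact hh

lemma sm_vec {f g h : ℝ → ℝ} (hf : ContDiff ℝ ∞ f) (hg : ContDiff ℝ ∞ g) (hh : ContDiff ℝ ∞ h) :
    ContDiff ℝ ∞ (fun θ => ![f θ, g θ, h θ]) := by
  rw [contDiff_pi]
  intro i
  fin_cases i
  · exact hf
  · exact hg
  · exact hh

lemma dx_eq (h1 : ∀ θ, u θ ^ 2 + v θ ^ 2 = 1) (θ : ℝ) :
    deriv x θ = hh x y u v θ * u θ + gg x y u v θ * v θ := by
  unfold hh gg
  linear_combination (-deriv x θ) * h1 θ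

lemma dy_eq (h1 : ∀ θ, u θ ^ 2 + v θ ^ 2 = 1) (θ : ℝ) :
    deriv y θ = hh x y u v θ * v θ - gg x y u v θ * u θ := by
  unfold hh gg
  linear_combination (-deriv y θ) * h1 θ

lemma cross_eq_env (hx : ContDiff ℝ ∞ x) (hy : ContDiff ℝ ∞ y)
    (hu : ContDiff ℝ ∞ u) (hv : ContDiff ℝ ∞ v) (h1 : ∀ θ, u θ ^ 2 + v θ ^ 2 = 1) (θ : ℝ) :
    crossProduct (lin x y u v θ) (deriv (lin x y u v) θ) = env x y u v θ := by
  have d := hasDerivAt_vec (sm_has hv θ) (sm_has hu θ).neg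
    (((sm_has hy θ).mul (sm_has hu θ)).sub ((sm_has hx θ).mul (sm_has hv θ)))
  have d' : deriv (lin x y u v) θ = _ := d.deriv
  rw [d', unit_du hu hv h1, unit_dv hu hv h1]
  have h := h1 θ
  ext i
  fin_cases i
  · simp [cross_apply, lin, env, pa, pb, gg]
    linear_combination (x θ * om u v θ) * h
  · simp [cross_apply, lin, env, pa, pb, gg]
    linear_combination (y θ * om u v θ) * h
  · simp [cross_apply, lin, env, pa, pb, gg]
    linear_combination (om u v θ) * h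

lemma has_pa (hx : ContDiff ℝ ∞ x) (hy : ContDiff ℝ ∞ y)
    (h1 : ∀ θ, u θ ^ 2 + v θ ^ 2 = 1) (θ : ℝ) :
    HasDerivAt (pa x y) (hh x y u v θ • pb u v θ - gg x y u v θ • pn u v θ) θ := by
  refine (hasDerivAt_vec (sm_has hx θ) (sm_has hy θ) (hasDerivAt_const θ (1 : ℝ))).congr_deriv ?_
  rw [dx_eq (y := y) h1, dy_eq (x := x) h1]
  ext i
  fin_cases i <;> simp [pb, pn]

lemma has_pb (hu : ContDiff ℝ ∞ u) (hv : ContDiff ℝ ∞ v)
    (h1 : ∀ θ, u θ ^ 2 + v θ ^ 2 = 1) (θ : ℝ) :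
    HasDerivAt (pb u v) (om u v θ • pn u v θ) θ := by
  refine (hasDerivAt_vec (sm_has hu θ) (sm_has hv θ) (hasDerivAt_const θ (0 : ℝ))).congr_deriv ?_
  rw [unit_du hu hv h1, unit_dv hu hv h1]
  ext i
  fin_cases i <;> simp [pn]

lemma has_env (hx : ContDiff ℝ ∞ x) (hy : ContDiff ℝ ∞ y)
    (hu : ContDiff ℝ ∞ u) (hv : ContDiff ℝ ∞ v) (h1 : ∀ θ, u θ ^ 2 + v θ ^ 2 = 1) (θ : ℝ) :
    HasDerivAt (env x y u v) (deriv (om u v) θ • pa x y θ
      + (deriv (gg x y u v) θ + om u v θ * hh x y u v θ) • pb u v θ) θ := by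
  refine (((sm_has (sm_om hu hv) θ).smul (has_pa hx hy h1 θ)).add
    ((sm_has (sm_gg hx hy hu hv) θ).smul (has_pb hu hv h1 θ))).congr_deriv ?_
  module

lemma has_pW (hx : ContDiff ℝ ∞ x) (hy : ContDiff ℝ ∞ y)
    (hu : ContDiff ℝ ∞ u) (hv : ContDiff ℝ ∞ v) (h1 : ∀ θ, u θ ^ 2 + v θ ^ 2 = 1)
    (i : Fin 3) (θ : ℝ) :
    HasDerivAt (pW x y u v i) (env x y u v θ i • pn u v θ - pn u v θ i • env x y u v θ) θ := by
  have a := has_pa hx hy h1 θ
  have b := has_pb hu hv h1 θ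
  refine (((hasDerivAt_pi.mp a i).smul b).sub ((hasDerivAt_pi.mp b i).smul a)).congr_deriv ?_
  simp only [env, Pi.add_apply, Pi.sub_apply, Pi.smul_apply, smul_eq_mul]
  module

lemma sm_pa (hx : ContDiff ℝ ∞ x) (hy : ContDiff ℝ ∞ y) : ContDiff ℝ ∞ (pa x y) :=
  sm_vec hx hy contDiff_const

lemma sm_pb (hu : ContDiff ℝ ∞ u) (hv : ContDiff ℝ ∞ v) : ContDiff ℝ ∞ (pb u v) :=
  sm_vec hu hv contDiff_const

lemma sm_env (hx : ContDiff ℝ ∞ x) (hy : ContDiff ℝ ∞ y)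
    (hu : ContDiff ℝ ∞ u) (hv : ContDiff ℝ ∞ v) : ContDiff ℝ ∞ (env x y u v) :=
  ((sm_om hu hv).smul (sm_pa hx hy)).add ((sm_gg hx hy hu hv).smul (sm_pb hu hv))

lemma sm_pW (hx : ContDiff ℝ ∞ x) (hy : ContDiff ℝ ∞ y)
    (hu : ContDiff ℝ ∞ u) (hv : ContDiff ℝ ∞ v) (i : Fin 3) : ContDiff ℝ ∞ (pW x y u v i) :=
  ((contDiff_pi.mp (sm_pa hx hy) i).smul (sm_pb hu hv)).sub
    ((contDiff_pi.mp (sm_pb hu hv) i).smul (sm_pa hx hy))

lemma abn_indep (h1 : ∀ θ, u θ ^ 2 + v θ ^ 2 = 1) (θ : ℝ) {p q r : ℝ}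
    (h : p • pa x y θ + q • pb u v θ + r • pn u v θ = 0) : p = 0 ∧ q = 0 ∧ r = 0 := by
  have a0 := congrFun h 0
  have a1 := congrFun h 1
  have a2 := congrFun h 2
  simp [pa, pb, pn] at a0 a1 a2
  subst a2
  refine ⟨rfl, ?_, ?_⟩
  · linear_combination u θ * a0 + v θ * a1 - q * h1 θ
  · linear_combination (-v θ) * a0 + u θ * a1 - r * h1 θ

lemma env_ne (h1 : ∀ θ, u θ ^ 2 + v θ ^ 2 = 1) (θ : ℝ)
    (h : om u v θ ≠ 0 ∨ gg x y u v θ ≠ 0) : env x y u v θ ≠ 0 := by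
  intro h0
  have := abn_indep (x := x) (y := y) h1 θ (p := om u v θ) (q := gg x y u v θ) (r := 0)
    (by rw [← h0]; simp [env])
  tauto

lemma env_two (θ : ℝ) : env x y u v θ 2 = om u v θ := by simp [env, pa, pb]

lemma pW_ne (h1 : ∀ θ, u θ ^ 2 + v θ ^ 2 = 1) (i : Fin 3) (θ : ℝ) (h : env x y u v θ i ≠ 0) :
    pW x y u v i θ ≠ 0 := by
  intro h0
  obtain ⟨a, b, -⟩ := abn_indep (x := x) (y := y) h1 θ (p := -pb u v θ i) (q := pa x y θ i)
    (r := 0) (by rw [← h0]; unfold pW; module)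
  apply h
  simp only [env, Pi.add_apply, Pi.smul_apply, smul_eq_mul]
  rw [b, neg_eq_zero.mp a]
  ring

lemma has_chart (hx : ContDiff ℝ ∞ x) (hy : ContDiff ℝ ∞ y)
    (hu : ContDiff ℝ ∞ u) (hv : ContDiff ℝ ∞ v) (h1 : ∀ θ, u θ ^ 2 + v θ ^ 2 = 1)
    (i : Fin 3) (θ : ℝ) (h : env x y u v θ i ≠ 0) :
    HasDerivAt (fun θ => (env x y u v θ i)⁻¹ • env x y u v θ)
      (KK x y u v θ • (((env x y u v θ i)⁻¹) ^ 2 • pW x y u v i θ)) θ := by
  have a := has_env hx hy hu hv h1 θ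
  refine (((hasDerivAt_pi.mp a i).inv h).smul a).congr_deriv ?_
  have e : env x y u v θ i = om u v θ * pa x y θ i + gg x y u v θ * pb u v θ i := by
    simp only [env, Pi.add_apply, Pi.smul_apply, smul_eq_mul]
  ext j
  have e' : env x y u v θ j = om u v θ * pa x y θ j + gg x y u v θ * pb u v θ j := by
    simp only [env, Pi.add_apply, Pi.smul_apply, smul_eq_mul]
  simp only [pW, KK, Pi.add_apply, Pi.sub_apply, Pi.smul_apply, smul_eq_mul, Pi.inv_apply]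
  field_simp
  rw [e, e']
  ring

lemma chart_cusp_iff (hx : ContDiff ℝ ∞ x) (hy : ContDiff ℝ ∞ y)
    (hu : ContDiff ℝ ∞ u) (hv : ContDiff ℝ ∞ v) (h1 : ∀ θ, u θ ^ 2 + v θ ^ 2 = 1)
    (i : Fin 3) (θ : ℝ) (h : env x y u v θ i ≠ 0) :
    HasDerivAt (fun θ => (env x y u v θ i)⁻¹ • env x y u v θ) 0 θ ↔ KK x y u v θ = 0 := by
  have a := has_chart hx hy hu hv h1 i θ h
  constructor
  · intro b
    have := a.unique b
    rcases smul_eq_zero.mp this with c | c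
    · exact c
    · rcases smul_eq_zero.mp c with d | d
      · exact absurd d (pow_ne_zero 2 (inv_ne_zero h))
      · exact absurd d (pW_ne h1 i θ h)
  · intro b
    rw [b, zero_smul] at a
    exact a

lemma cusp_derivs {K : ℝ → ℝ} {Z X : ℝ → Fin 3 → ℝ} {θ : ℝ} (hK : ContDiff ℝ ∞ K)
    (hZ : ContDiffAt ℝ ∞ Z θ) (hX : ∀ᶠ τ in 𝓝 θ, HasDerivAt X (K τ • Z τ) τ) (h0 : K θ = 0) :
    iteratedDeriv 2 X θ = deriv K θ • Z θ ∧
    iteratedDeriv 3 X θ = deriv (deriv K) θ • Z θ + (2 * deriv K θ) • deriv Z θ := by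
  have hZ2 : ContDiffAt ℝ 2 Z θ := hZ.of_le (ENat.natCast_le_of_coe_top_le_withTop le_rfl 2)
  have e1 : deriv X =ᶠ[𝓝 θ] fun τ => K τ • Z τ := hX.mono fun τ h => h.deriv
  have hZe : ∀ᶠ τ in 𝓝 θ, ContDiffAt ℝ 2 Z τ := hZ2.eventually (by simp)
  have e2 : deriv (deriv X) =ᶠ[𝓝 θ] fun τ => K τ • deriv Z τ + deriv K τ • Z τ := by
    refine e1.deriv.trans (hZe.mono fun τ h => ?_)
    exact ((sm_has hK τ).smul (h.differentiableAt (by simp)).hasDerivAt).deriv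
  have hZ' : DifferentiableAt ℝ (deriv Z) θ := by
    have : ContDiffAt ℝ 1 (deriv Z) θ := hZ2.derivWithin (m := 1) (by norm_num)
    exact this.differentiableAt (by simp)
  have i2 : iteratedDeriv 2 X = deriv (deriv X) := by
    rw [iteratedDeriv_succ, iteratedDeriv_one]
  have i3 : iteratedDeriv 3 X = deriv (deriv (deriv X)) := by
    rw [iteratedDeriv_succ, i2]
  constructor
  · rw [i2, e2.eq_of_nhds, h0]; simp
  · rw [i3, e2.deriv_eq]
    have := (((sm_has hK θ).smul hZ'.hasDerivAt).add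
      ((sm_has (sm_deriv hK) θ).smul (hZ2.differentiableAt (by simp)).hasDerivAt)).deriv
    erw [this]
    rw [h0]
    module

lemma chart_ordinary (hx : ContDiff ℝ ∞ x) (hy : ContDiff ℝ ∞ y)
    (hu : ContDiff ℝ ∞ u) (hv : ContDiff ℝ ∞ v) (h1 : ∀ θ, u θ ^ 2 + v θ ^ 2 = 1)
    (i : Fin 3) (θ : ℝ) (h : env x y u v θ i ≠ 0) (h0 : KK x y u v θ = 0)
    (h0' : deriv (KK x y u v) θ ≠ 0) :
    LinearIndependent ℝ ![iteratedDeriv 2 (fun θ => (env x y u v θ i)⁻¹ • env x y u v θ) θ,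
      iteratedDeriv 3 (fun θ => (env x y u v θ i)⁻¹ • env x y u v θ) θ] := by
  have se : ContDiff ℝ ∞ (fun θ => env x y u v θ i) := contDiff_pi.mp (sm_env hx hy hu hv) i
  have sc : ContDiffAt ℝ ∞ (fun θ => ((env x y u v θ i)⁻¹) ^ 2) θ :=
    (se.contDiffAt.inv h).pow 2
  have sZ : ContDiffAt ℝ ∞ (fun θ => ((env x y u v θ i)⁻¹) ^ 2 • pW x y u v i θ) θ :=
    sc.smul (sm_pW hx hy hu hv i).contDiffAt
  have ev : ∀ᶠ τ in 𝓝 θ, env x y u v τ i ≠ 0 := se.continuous.continuousAt.eventually_ne h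
  obtain ⟨d2, d3⟩ := cusp_derivs (sm_KK hx hy hu hv) sZ
    (ev.mono fun τ hτ => has_chart hx hy hu hv h1 i τ hτ) h0
  have dZ := ((sc.differentiableAt (by simp)).hasDerivAt.smul (has_pW hx hy hu hv h1 i θ)).deriv
  rw [d2, d3]
  erw [dZ]
  rw [LinearIndependent.pair_iff]
  intro s t hst
  have hc : ((env x y u v θ i)⁻¹) ^ 2 ≠ 0 := pow_ne_zero 2 (inv_ne_zero h)
  generalize deriv (fun θ => ((env x y u v θ i)⁻¹) ^ 2) θ = c' at hst
  generalize ((env x y u v θ i)⁻¹) ^ 2 = c at hst hc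
  generalize deriv (deriv (KK x y u v)) θ = k'' at hst
  generalize deriv (KK x y u v) θ = k' at hst h0'
  have ht : t = 0 := by
    obtain ⟨-, -, a⟩ := abn_indep (x := x) (y := y) h1 θ
      (p := -(s * k' * c + t * k'' * c + t * 2 * k' * c') * pb u v θ i
        - t * 2 * k' * c * pn u v θ i * om u v θ)
      (q := (s * k' * c + t * k'' * c + t * 2 * k' * c') * pa x y θ i
        - t * 2 * k' * c * pn u v θ i * gg x y u v θ)
      (r := t * 2 * k' * c * env x y u v θ i) (by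
        rw [← hst]
        generalize env x y u v θ i = e
        unfold pW env
        module)
    simpa [h, h0', hc] using a
  subst ht
  refine ⟨?_, rfl⟩
  have hW := pW_ne h1 i θ h
  simpa [h0', hc, hW] using hst

end Pool.Agent.P.MP_3225bd_gt
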