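import Pool.Agent.P.MP_3225bd_gt.Step

/-!
The pencil of rays from an interior point and its images under the billiard map.
-/

open scoped ContDiff
open Real

namespace Pool.Agent.P.MP_3225bd_gt

noncomputable def init (S₁ S₂ θ : ℝ) : St := (S₁, S₂, cos θ, sin θ, 1, 0)

namespace Par

variable (Q : Par)

noncomputable def orb (n : ℕ) (S₁ S₂ θ : ℝ) : St := Q.F^[n] (init S₁ S₂ θ)

def a₁ (S₁ S₂ : ℝ) : ℝ := Q.α * (S₁ - Q.c₁) + Q.β * (S₂ - Q.c₂)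
def a₂ (S₁ S₂ : ℝ) : ℝ := Q.β * (S₁ - Q.c₁) + Q.γ * (S₂ - Q.c₂)
def mp (S₁ S₂ : ℝ) : ℝ := Q.a₁ S₁ S₂ ^ 2 + Q.α * (1 - Q.qf S₁ S₂)
def mq (S₁ S₂ : ℝ) : ℝ := Q.a₁ S₁ S₂ * Q.a₂ S₁ S₂ + Q.β * (1 - Q.qf S₁ S₂)
def mr (S₁ S₂ : ℝ) : ℝ := Q.a₂ S₁ S₂ ^ 2 + Q.γ * (1 - Q.qf S₁ S₂)

/-- derivative of the conserved quantity along the pencil -/
noncomputable def DD (S₁ S₂ θ : ℝ) : ℝ :=
  (Q.mr S₁ S₂ - Q.mp S₁ S₂) * sin (2 * θ) + 2 * Q.mq S₁ S₂ * cos (2 * θ)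

variable {Q}

lemma init_unit (S₁ S₂ θ : ℝ) : (init S₁ S₂ θ).u ^ 2 + (init S₁ S₂ θ).v ^ 2 = 1 :=
  cos_sq_add_sin_sq θ

lemma init_good {S₁ S₂ : ℝ} (hS : Q.qf S₁ S₂ < 1) (θ : ℝ) : Q.Good (init S₁ S₂ θ) := by
  have h1 : 0 < (init S₁ S₂ θ).u ^ 2 + (init S₁ S₂ θ).v ^ 2 := by rw [init_unit]; norm_num
  refine ⟨h1, ?_⟩
  have h2 := qA_pos (Q := Q) h1
  have e : Q.D (init S₁ S₂ θ) = Q.qB (init S₁ S₂ θ) ^ 2
      + Q.qA (init S₁ S₂ θ) * (1 - Q.qf S₁ S₂) := by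
    simp only [D, init]; ring
  rw [e]
  have : 0 < 1 - Q.qf S₁ S₂ := by linarith
  positivity

lemma init_t_pos {S₁ S₂ : ℝ} (hS : Q.qf S₁ S₂ < 1) (θ : ℝ) : 0 < Q.t (init S₁ S₂ θ) := by
  have h := init_good hS θ
  have h2 := qA_pos (Q := Q) h.1
  have h3 := J_pos h
  have h4 := J_sq h
  have e : Q.D (init S₁ S₂ θ) = Q.qB (init S₁ S₂ θ) ^ 2
      + Q.qA (init S₁ S₂ θ) * (1 - Q.qf S₁ S₂) := by
    simp only [D, init]; ring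
  have h5 : 0 < Q.qA (init S₁ S₂ θ) * (1 - Q.qf S₁ S₂) := mul_pos h2 (by linarith)
  unfold t
  apply div_pos _ h2
  by_contra hc
  nlinarith

lemma orb_good {S₁ S₂ : ℝ} (hS : Q.qf S₁ S₂ < 1) (n : ℕ) (θ : ℝ) :
    Q.Good (Q.orb n S₁ S₂ θ) := iter_good (init_good hS θ) n

lemma orb_unit {S₁ S₂ : ℝ} (hS : Q.qf S₁ S₂ < 1) (n : ℕ) (θ : ℝ) :
    (Q.orb n S₁ S₂ θ).u ^ 2 + (Q.orb n S₁ S₂ θ).v ^ 2 = 1 := by
  unfold orb; rw [iter_norm (init_good hS θ), init_unit]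

lemma orb_succ (n : ℕ) (S₁ S₂ θ : ℝ) : Q.orb (n + 1) S₁ S₂ θ = Q.F (Q.orb n S₁ S₂ θ) :=
  Function.iterate_succ_apply' _ _ _

lemma orb_D {S₁ S₂ : ℝ} (hS : Q.qf S₁ S₂ < 1) (n : ℕ) (θ : ℝ) :
    Q.D (Q.orb n S₁ S₂ θ) = Q.D (init S₁ S₂ θ) := iter_D (init_good hS θ) n

lemma orb_J {S₁ S₂ : ℝ} (hS : Q.qf S₁ S₂ < 1) (n : ℕ) (θ : ℝ) :
    Q.J (Q.orb n S₁ S₂ θ) = Q.J (init S₁ S₂ θ) := by
  unfold J; rw [orb_D hS]

lemma orb_ne (n : ℕ) (S₁ S₂ θ : ℝ) : (Q.orb n S₁ S₂ θ).w ≠ 0 ∨ (Q.orb n S₁ S₂ θ).g ≠ 0 :=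
  iter_ne (Or.inl one_ne_zero) n

lemma sm_init (S₁ S₂ : ℝ) : ContDiff ℝ ∞ (init S₁ S₂) := by
  unfold init; fun_prop

lemma sm_orb {S₁ S₂ : ℝ} (hS : Q.qf S₁ S₂ < 1) (n : ℕ) : ContDiff ℝ ∞ (Q.orb n S₁ S₂) := by
  rw [contDiff_iff_contDiffAt]
  intro θ
  exact (sm_iter (init_good hS θ) n).comp θ (sm_init S₁ S₂).contDiffAt

lemma sm_comp {S₁ S₂ : ℝ} (hS : Q.qf S₁ S₂ < 1) (n : ℕ) {f : St → ℝ}
    (hf : ∀ s, Q.Good s → ContDiffAt ℝ ∞ f s) :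
    ContDiff ℝ ∞ (fun θ => f (Q.orb n S₁ S₂ θ)) := by
  rw [contDiff_iff_contDiffAt]
  intro θ
  exact (hf _ (orb_good hS n θ)).comp θ (sm_orb hS n).contDiffAt

lemma hasDerivAt_D_init (S₁ S₂ θ : ℝ) :
    HasDerivAt (fun θ => Q.D (init S₁ S₂ θ)) (Q.DD S₁ S₂ θ) θ := by
  have e : (fun θ => Q.D (init S₁ S₂ θ)) = fun θ => Q.mp S₁ S₂ * cos θ ^ 2
      + 2 * Q.mq S₁ S₂ * (cos θ * sin θ) + Q.mr S₁ S₂ * sin θ ^ 2 := by
    funext θ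
    simp only [D, qA, qB, init, mp, mq, mr, a₁, a₂]
    ring
  rw [e]
  have h := ((((hasDerivAt_cos θ).pow 2).const_mul (Q.mp S₁ S₂)).add
    (((hasDerivAt_cos θ).mul (hasDerivAt_sin θ)).const_mul (2 * Q.mq S₁ S₂))).add
    (((hasDerivAt_sin θ).pow 2).const_mul (Q.mr S₁ S₂))
  refine HasDerivAt.congr_deriv h ?_
  unfold DD
  rw [sin_two_mul, cos_two_mul']
  simp
  ring

lemma deriv_J_init {S₁ S₂ : ℝ} (hS : Q.qf S₁ S₂ < 1) (θ : ℝ) :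
    deriv (fun θ => Q.J (init S₁ S₂ θ)) θ = Q.DD S₁ S₂ θ / (2 * Q.J (init S₁ S₂ θ)) :=
  ((hasDerivAt_D_init S₁ S₂ θ).sqrt (init_good hS θ).2.ne').deriv

/-- the coordinates of the family after `n` reflections -/
noncomputable abbrev X (Q : Par) (n : ℕ) (S₁ S₂ : ℝ) (θ : ℝ) : ℝ := (Q.orb n S₁ S₂ θ).x
noncomputable abbrev Y (Q : Par) (n : ℕ) (S₁ S₂ : ℝ) (θ : ℝ) : ℝ := (Q.orb n S₁ S₂ θ).y
noncomputable abbrev U (Q : Par) (n : ℕ) (S₁ S₂ : ℝ) (θ : ℝ) : ℝ := (Q.orb n S₁ S₂ θ).u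
noncomputable abbrev V (Q : Par) (n : ℕ) (S₁ S₂ : ℝ) (θ : ℝ) : ℝ := (Q.orb n S₁ S₂ θ).v

lemma sm_X {S₁ S₂ : ℝ} (hS : Q.qf S₁ S₂ < 1) (n : ℕ) : ContDiff ℝ ∞ (Q.X n S₁ S₂) :=
  sm_comp hS n (f := St.x) (fun _ _ => by fun_prop)
lemma sm_Y {S₁ S₂ : ℝ} (hS : Q.qf S₁ S₂ < 1) (n : ℕ) : ContDiff ℝ ∞ (Q.Y n S₁ S₂) :=
  sm_comp hS n (f := St.y) (fun _ _ => by fun_prop)
lemma sm_U {S₁ S₂ : ℝ} (hS : Q.qf S₁ S₂ < 1) (n : ℕ) : ContDiff ℝ ∞ (Q.U n S₁ S₂) :=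
  sm_comp hS n (f := St.u) (fun _ _ => by fun_prop)
lemma sm_V {S₁ S₂ : ℝ} (hS : Q.qf S₁ S₂ < 1) (n : ℕ) : ContDiff ℝ ∞ (Q.V n S₁ S₂) :=
  sm_comp hS n (f := St.v) (fun _ _ => by fun_prop)

/-- one step of the induction -/
lemma step_facts {S₁ S₂ : ℝ} (hS : Q.qf S₁ S₂ < 1) (n : ℕ) :
    (∀ θ, gg (Q.X (n + 1) S₁ S₂) (Q.Y (n + 1) S₁ S₂) (Q.U (n + 1) S₁ S₂) (Q.V (n + 1) S₁ S₂) θ
      = -(gg (Q.X n S₁ S₂) (Q.Y n S₁ S₂) (Q.U n S₁ S₂) (Q.V n S₁ S₂) θ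
          - Q.t (Q.orb n S₁ S₂ θ) * om (Q.U n S₁ S₂) (Q.V n S₁ S₂) θ)) ∧
    (∀ θ, om (Q.U (n + 1) S₁ S₂) (Q.V (n + 1) S₁ S₂) θ
      = -om (Q.U n S₁ S₂) (Q.V n S₁ S₂) θ
        - 2 * Q.Δ * (gg (Q.X n S₁ S₂) (Q.Y n S₁ S₂) (Q.U n S₁ S₂) (Q.V n S₁ S₂) θ
          - Q.t (Q.orb n S₁ S₂ θ) * om (Q.U n S₁ S₂) (Q.V n S₁ S₂) θ)
          / (Q.J (Q.orb n S₁ S₂ θ) * Q.ρ (Q.orb n S₁ S₂ θ))) ∧
    (∀ θ, KK (Q.X (n + 1) S₁ S₂) (Q.Y (n + 1) S₁ S₂) (Q.U (n + 1) S₁ S₂) (Q.V (n + 1) S₁ S₂) θ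
      = KK (Q.X n S₁ S₂) (Q.Y n S₁ S₂) (Q.U n S₁ S₂) (Q.V n S₁ S₂) θ
        + 6 * Q.Δ * ((gg (Q.X n S₁ S₂) (Q.Y n S₁ S₂) (Q.U n S₁ S₂) (Q.V n S₁ S₂) θ
          - Q.t (Q.orb n S₁ S₂ θ) * om (Q.U n S₁ S₂) (Q.V n S₁ S₂) θ)
            / Q.J (Q.orb n S₁ S₂ θ)) ^ 2 / Q.ρ (Q.orb n S₁ S₂ θ)
          * deriv (fun θ => Q.J (init S₁ S₂ θ)) θ) := by
  have st : ContDiff ℝ ∞ (fun θ => Q.t (Q.orb n S₁ S₂ θ)) := sm_comp hS n (fun _ h => sm_t h)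
  have eX : Q.X (n + 1) S₁ S₂
      = fun θ => Q.X n S₁ S₂ θ + Q.t (Q.orb n S₁ S₂ θ) * Q.U n S₁ S₂ θ := by
    funext θ; simp only [X, orb_succ]; rfl
  have eY : Q.Y (n + 1) S₁ S₂
      = fun θ => Q.Y n S₁ S₂ θ + Q.t (Q.orb n S₁ S₂ θ) * Q.V n S₁ S₂ θ := by
    funext θ; simp only [Y, orb_succ]; rfl
  have eJ : (fun θ => Q.J (Q.orb n S₁ S₂ θ)) = fun θ => Q.J (init S₁ S₂ θ) :=
    funext (orb_J hS n)
  have g := fun θ => orb_good hS n θ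
  obtain ⟨r1, r2, r3⟩ := reflect_jump (α := Q.α) (β := Q.β) (γ := Q.γ) (c₁ := Q.c₁) (c₂ := Q.c₂)
    (X := Q.X (n + 1) S₁ S₂) (Y := Q.Y (n + 1) S₁ S₂) (u := Q.U n S₁ S₂) (v := Q.V n S₁ S₂)
    (U := Q.U (n + 1) S₁ S₂) (V := Q.V (n + 1) S₁ S₂)
    (J := fun θ => Q.J (Q.orb n S₁ S₂ θ)) (N₁ := fun θ => Q.N₁ (Q.orb n S₁ S₂ θ))
    (N₂ := fun θ => Q.N₂ (Q.orb n S₁ S₂ θ)) (ρ := fun θ => Q.ρ (Q.orb n S₁ S₂ θ))
    (sm_X hS _) (sm_Y hS _) (sm_U hS _) (sm_V hS _)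
    (fun θ => by simp only [X, Y, orb_succ]; rfl) (fun θ => by simp only [X, Y, orb_succ]; rfl)
    (fun θ => rfl) (fun θ => by simp only [X, Y, orb_succ]; exact hit_on (g θ))
    (orb_unit hS n) (fun θ => NJ (g θ)) (fun θ => (J_pos (g θ)).ne')
    (fun θ => by simp only [U, orb_succ]; rfl) (fun θ => by simp only [V, orb_succ]; rfl)
  have sg := slide_gg (sm_X hS n) (sm_Y hS n) (sm_U hS n) (sm_V hS n) st
  have sK := slide_KK (sm_X hS n) (sm_Y hS n) (sm_U hS n) (sm_V hS n) st (orb_unit hS n)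
  rw [← eX, ← eY] at sg sK
  refine ⟨fun θ => by rw [r1, sg], fun θ => by rw [r2, sg]; rfl, fun θ => ?_⟩
  rw [r3, sg, sK, eJ]
  simp only [orb_J hS n, Δ]

lemma orb_wg {S₁ S₂ : ℝ} (hS : Q.qf S₁ S₂ < 1) (n : ℕ) :
    (∀ θ, om (Q.U n S₁ S₂) (Q.V n S₁ S₂) θ = (Q.orb n S₁ S₂ θ).w) ∧
    (∀ θ, gg (Q.X n S₁ S₂) (Q.Y n S₁ S₂) (Q.U n S₁ S₂) (Q.V n S₁ S₂) θ
      = (Q.orb n S₁ S₂ θ).g) := by
  induction n with
  | zero =>
    have e1 : Q.U 0 S₁ S₂ = cos := rfl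
    have e2 : Q.V 0 S₁ S₂ = sin := rfl
    have e3 : Q.X 0 S₁ S₂ = fun _ => S₁ := rfl
    have e4 : Q.Y 0 S₁ S₂ = fun _ => S₂ := rfl
    constructor
    · intro θ
      have : (Q.orb 0 S₁ S₂ θ).w = 1 := rfl
      rw [this, e1, e2]
      simp only [om, Real.deriv_sin, Real.deriv_cos]
      linear_combination cos_sq_add_sin_sq θ
    · intro θ
      have : (Q.orb 0 S₁ S₂ θ).g = 0 := rfl
      rw [this, e3, e4]
      simp [gg]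
  | succ n ih =>
    obtain ⟨r1, r2, -⟩ := step_facts hS n
    constructor
    · intro θ
      rw [r2, ih.1, ih.2, orb_succ, F_w]
    · intro θ
      rw [r1, ih.1, ih.2, orb_succ, F_g]

/-- The main formula: the Wronskian is a positive multiple of the derivative of the integral. -/
lemma orb_KK {S₁ S₂ : ℝ} (hS : Q.qf S₁ S₂ < 1) (n : ℕ) :
    ∃ c : ℝ → ℝ, ContDiff ℝ ∞ c ∧ (∀ θ, 0 ≤ c θ) ∧ (1 ≤ n → ∀ θ, 0 < c θ) ∧
      ∀ θ, KK (Q.X n S₁ S₂) (Q.Y n S₁ S₂) (Q.U n S₁ S₂) (Q.V n S₁ S₂) θ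
        = c θ * Q.DD S₁ S₂ θ := by
  induction n with
  | zero =>
    refine ⟨fun _ => 0, contDiff_const, fun _ => le_rfl, fun h => absurd h (by norm_num), ?_⟩
    intro θ
    have e3 : Q.X 0 S₁ S₂ = fun _ => S₁ := rfl
    have e4 : Q.Y 0 S₁ S₂ = fun _ => S₂ := rfl
    have e5 : gg (Q.X 0 S₁ S₂) (Q.Y 0 S₁ S₂) (Q.U 0 S₁ S₂) (Q.V 0 S₁ S₂) = fun _ => 0 := by
      funext θ; rw [e3, e4]; simp [gg]
    have e6 : hh (Q.X 0 S₁ S₂) (Q.Y 0 S₁ S₂) (Q.U 0 S₁ S₂) (Q.V 0 S₁ S₂) θ = 0 := by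
      rw [e3, e4]; simp [hh]
    unfold KK
    rw [e5, e6]
    simp
  | succ n ih =>
    obtain ⟨c, sc, c0, c1, hc⟩ := ih
    obtain ⟨-, -, r3⟩ := step_facts hS n
    obtain ⟨w1, w2⟩ := orb_wg hS n
    have g := fun θ => orb_good hS n θ
    let f : St → ℝ := fun s => 6 * Q.Δ * ((s.g - Q.t s * s.w) / Q.J s) ^ 2 / Q.ρ s / (2 * Q.J s)
    have sf : ∀ s, Q.Good s → ContDiffAt ℝ ∞ f s := by
      intro s h
      have a1 := sm_t h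
      have a2 := sm_J h
      have a3 : ContDiffAt ℝ ∞ (fun s : St => (s.g - Q.t s * s.w) / Q.J s) s :=
        ContDiffAt.div (by fun_prop) a2 (J_pos h).ne'
      exact ContDiffAt.div (ContDiffAt.div (by fun_prop) (sm_ρ h) (ρ_pos h).ne') (by fun_prop)
        (mul_pos two_pos (J_pos h)).ne'
    have f0 : ∀ s, Q.Good s → 0 ≤ f s := by
      intro s h
      have := Δ_pos (Q := Q)
      have := J_pos h
      have := ρ_pos h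
      simp only [f]
      positivity
    refine ⟨fun θ => c θ + f (Q.orb n S₁ S₂ θ), sc.add (sm_comp hS n sf),
      fun θ => add_nonneg (c0 θ) (f0 _ (g θ)), fun _ θ => ?_, fun θ => ?_⟩
    · rcases Nat.eq_zero_or_pos n with rfl | hn
      · apply add_pos_of_nonneg_of_pos (c0 θ)
        have := Δ_pos (Q := Q)
        have := J_pos (g θ)
        have := ρ_pos (g θ)
        have ht := init_t_pos hS θ
        have e : (Q.orb 0 S₁ S₂ θ).g - Q.t (Q.orb 0 S₁ S₂ θ) * (Q.orb 0 S₁ S₂ θ).w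
            = -Q.t (init S₁ S₂ θ) := by
          change 0 - Q.t (init S₁ S₂ θ) * 1 = _
          ring
        simp only [f]
        rw [e]
        have : -Q.t (init S₁ S₂ θ) / Q.J (Q.orb 0 S₁ S₂ θ) ≠ 0 :=
          div_ne_zero (by linarith) (by linarith)
        positivity
      · exact add_pos_of_pos_of_nonneg (c1 hn θ) (f0 _ (g θ))
    · rw [r3, hc, w1, w2, deriv_J_init hS, ← orb_J hS n]
      simp only [f]
      ring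

end Par

/-- A nonzero trigonometric polynomial of pure degree two has exactly four zeros. -/
lemma four_zeros {a b : ℝ} (hab : a ≠ 0 ∨ b ≠ 0) :
    {θ ∈ Set.Ico 0 (2 * π) | a * sin (2 * θ) + b * cos (2 * θ) = 0}.ncard = 4 := by
  obtain ⟨φ, hφ0, hφ1, hφ⟩ : ∃ φ : ℝ, 0 ≤ φ ∧ φ < π ∧ a * sin φ + b * cos φ = 0 := by
    by_cases hb : b = 0
    · exact ⟨0, le_rfl, pi_pos, by simp [hb]⟩
    · refine ⟨π / 2 + arctan (a / b), ?_, ?_, ?_⟩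
      · linarith [neg_pi_div_two_lt_arctan (a / b)]
      · linarith [arctan_lt_pi_div_two (a / b)]
      · rw [add_comm (π / 2), sin_add_pi_div_two, cos_add_pi_div_two, sin_arctan, cos_arctan]
        field_simp
        ring
  have hR : a * cos φ - b * sin φ ≠ 0 := by
    intro h
    have h1 := cos_sq_add_sin_sq φ
    have ha : a = 0 := by linear_combination (cos φ) * h + (sin φ) * hφ - a * h1
    have hb : b = 0 := by linear_combination (-sin φ) * h + (cos φ) * hφ - b * h1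
    tauto
  have key : ∀ θ, a * sin (2 * θ) + b * cos (2 * θ) = (a * cos φ - b * sin φ) * sin (2 * θ - φ) := by
    intro θ
    have e : 2 * θ = (2 * θ - φ) + φ := by ring
    conv_lhs => rw [e, sin_add, cos_add]
    linear_combination cos (2 * θ - φ) * hφ
  have hp := pi_pos
  have e : {θ ∈ Set.Ico 0 (2 * π) | a * sin (2 * θ) + b * cos (2 * θ) = 0}
      = {φ / 2, φ / 2 + π / 2, φ / 2 + π, φ / 2 + 3 * π / 2} := by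
    ext θ
    simp only [Set.mem_ofPred_eq, Set.mem_Ico, key, mul_eq_zero, hR, false_or, sin_eq_zero_iff,
      Set.mem_insert_iff, Set.mem_singleton_iff]
    constructor
    · rintro ⟨⟨h0, h1⟩, k, hk⟩
      have k0 : (-1 : ℝ) < k := by
        by_contra hc
        push Not at hc
        nlinarith
      have k1 : (k : ℝ) < 4 := by
        by_contra hc
        push Not at hc
        nlinarith
      have k0' : -1 < k := by exact_mod_cast k0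
      have k1' : k < 4 := by exact_mod_cast k1
      interval_cases k <;> push_cast at hk
      · left; linarith
      · right; left; linarith
      · right; right; left; linarith
      · right; right; right; linarith
    · rintro (rfl | rfl | rfl | rfl)
      · exact ⟨⟨by linarith, by linarith⟩, 0, by push_cast; ring⟩
      · exact ⟨⟨by linarith, by linarith⟩, 1, by push_cast; ring⟩
      · exact ⟨⟨by linarith, by linarith⟩, 2, by push_cast; ring⟩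
      · exact ⟨⟨by linarith, by linarith⟩, 3, by push_cast; ring⟩
  rw [e, Set.ncard_eq_four]
  refine ⟨_, _, _, _, ?_, ?_, ?_, ?_, ?_, ?_, rfl⟩ <;> intro h <;> linarith

end Pool.Agent.P.MP_3225bd_gt
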