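import Pool.Agent.P.MP_3225bd_gt.Bridge
import Pool.Agent.P.MP_3225bd_gt.Envelope

/-!
Main theorems on the cusps of caustics by reflection in an ellipse.
-/

open scoped ContDiff Topology
open Real MeasureTheory

namespace Pool.Agent.P.MP_3225bd_gt

namespace Par

variable {Q : Par}

/-- If the integral is critical and the direction is stationary, the line passes through the
centre. -/
lemma through_centre {S₁ S₂ : ℝ} (hS : Q.qf S₁ S₂ < 1) (n : ℕ) (θ : ℝ) (hD : Q.DD S₁ S₂ θ = 0)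
    (hw : (Q.orb n S₁ S₂ θ).w = 0) :
    (Q.X n S₁ S₂ θ - Q.c₁) * Q.V n S₁ S₂ θ - (Q.Y n S₁ S₂ θ - Q.c₂) * Q.U n S₁ S₂ θ = 0 := by
  obtain ⟨w1, w2⟩ := orb_wg hS n
  have hg : (Q.orb n S₁ S₂ θ).g ≠ 0 := (orb_ne n S₁ S₂ θ).resolve_left (by simp [hw])
  have dU := sm_has (sm_U hS n) θ
  have dV := sm_has (sm_V hS n) θ
  rw [unit_du (sm_U hS n) (sm_V hS n) (orb_unit hS n), w1, hw] at dU
  rw [unit_dv (sm_U hS n) (sm_V hS n) (orb_unit hS n), w1, hw] at dV
  have dX := (sm_has (sm_X hS n) θ).sub_const Q.c₁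
  have dY := (sm_has (sm_Y hS n) θ).sub_const Q.c₂
  have d := ((((dU.pow 2).const_mul Q.α).add ((dU.const_mul (2 * Q.β)).mul dV)).add
    ((dV.pow 2).const_mul Q.γ)).sub ((((dX.mul dV).sub (dY.mul dU)).pow 2).const_mul Q.Δ)
  have d0 := hasDerivAt_D_init (Q := Q) S₁ S₂ θ
  have e : (fun θ => Q.D (init S₁ S₂ θ)) = fun θ => Q.α * Q.U n S₁ S₂ θ ^ 2
      + 2 * Q.β * Q.U n S₁ S₂ θ * Q.V n S₁ S₂ θ + Q.γ * Q.V n S₁ S₂ θ ^ 2
      - Q.Δ * ((Q.X n S₁ S₂ θ - Q.c₁) * Q.V n S₁ S₂ θ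
        - (Q.Y n S₁ S₂ θ - Q.c₂) * Q.U n S₁ S₂ θ) ^ 2 := by
    funext θ
    rw [← orb_D hS n]
    simp only [D, qA, qB, qf, Δ]
    ring
  rw [e, hD] at d0
  have k := d0.unique d
  have w3 := w2 θ
  unfold gg at w3
  have k2 : Q.Δ * ((Q.X n S₁ S₂ θ - Q.c₁) * Q.V n S₁ S₂ θ
      - (Q.Y n S₁ S₂ θ - Q.c₂) * Q.U n S₁ S₂ θ) * (Q.orb n S₁ S₂ θ).g = 0 := by
    rw [← w3]
    simp only [Pi.mul_apply, Pi.sub_apply] at k
    norm_num at k
    rcases k with k | k | k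
    · rw [k]; ring
    · rw [k]; ring
    · rw [k]; ring
  rcases mul_eq_zero.mp k2 with k3 | k3
  · exact (mul_eq_zero.mp k3).resolve_left Δ_pos.ne'
  · exact absurd k3 hg

/-- state through the centre with stationary direction -/
def cen (Q : Par) (p q : ℝ) : St := (Q.c₁, Q.c₂, p, q, 0, 1)

lemma cen_good {p q : ℝ} (h : 0 < p ^ 2 + q ^ 2) : Q.Good (Q.cen p q) := by
  refine ⟨h, ?_⟩
  have h2 := qA_pos (Q := Q) (s := Q.cen p q) h
  have e : Q.D (Q.cen p q) = Q.qA (Q.cen p q) := by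
    simp only [D, qB, qf, cen]; ring
  rwa [e]

lemma bad_source {S₁ S₂ : ℝ} (hS : Q.qf S₁ S₂ < 1) {n : ℕ} (hn : 1 ≤ n) (θ : ℝ)
    (hD : Q.DD S₁ S₂ θ = 0) (hw : (Q.orb n S₁ S₂ θ).w = 0) :
    ∃ p q : ℝ, p ^ 2 + q ^ 2 = 1 ∧ (Q.F^[n] (Q.cen p q)).w ≠ 0 ∧
      S₁ = (Q.F^[n] (Q.cen p q)).x
        + (Q.F^[n] (Q.cen p q)).g / (Q.F^[n] (Q.cen p q)).w * (Q.F^[n] (Q.cen p q)).u ∧
      S₂ = (Q.F^[n] (Q.cen p q)).y
        + (Q.F^[n] (Q.cen p q)).g / (Q.F^[n] (Q.cen p q)).w * (Q.F^[n] (Q.cen p q)).v := by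
  have hm := through_centre hS n θ hD hw
  have hu := orb_unit hS n θ
  have hr := iter_rev (init_good hS θ) n
  change Q.F^[n] (Q.rev (Q.orb n S₁ S₂ θ)) = _ at hr
  simp only [X, Y, U, V] at hm
  generalize Q.orb n S₁ S₂ θ = s at hm hu hr hw
  have hu' : (-s.u) ^ 2 + (-s.v) ^ 2 = 1 := by linarith
  have g1 : Q.Good (Q.cen (-s.u) (-s.v)) := cen_good (by rw [hu']; norm_num)
  have g0 : Q.Good (scale (-s.g) (Q.cen (-s.u) (-s.v))) := g1
  have e1 := (F_congr (s' := Q.rev s) g0 (-((Q.hx s - Q.c₁) * s.u + (Q.hy s - Q.c₂) * s.v))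
    (by
      simp only [rev, scale, cen, hx, hy]
      linear_combination s.v * hm - (s.x - Q.c₁ + Q.t s * s.u) * hu)
    (by
      simp only [rev, scale, cen, hx, hy]
      linear_combination (-s.u) * hm - (s.y - Q.c₂ + Q.t s * s.v) * hu)
    rfl rfl (by simp only [rev, scale, cen]; rw [hw]; ring)
    (by simp only [rev, scale, cen]; rw [hw]; ring)).1
  obtain ⟨k, rfl⟩ : ∃ k, n = k + 1 := ⟨n - 1, by omega⟩
  rw [Function.iterate_succ_apply, e1, ← Function.iterate_succ_apply Q.F, iter_scale] at hr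
  refine ⟨-s.u, -s.v, hu', ?_⟩
  change scale (-s.g) (Q.F^[k + 1] (Q.cen (-s.u) (-s.v))) = _ at hr
  generalize Q.F^[k + 1] (Q.cen (-s.u) (-s.v)) = T at hr
  simp only [scale, rev, Prod.mk.injEq] at hr
  obtain ⟨r1, r2, r3, r4, r5, r6⟩ := hr
  have r5' : -s.g * T.w = 1 := r5
  have r6' : -s.g * T.g = Q.t (init S₁ S₂ θ) := by
    rw [r6]
    change -(0 - Q.t (init S₁ S₂ θ) * 1) = _
    ring
  have hw' : T.w ≠ 0 := by
    intro h; rw [h] at r5'; simp at r5'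
  have ht : T.g / T.w = Q.t (init S₁ S₂ θ) := by
    field_simp
    linear_combination T.w * r6' - T.g * r5'
  refine ⟨hw', ?_, ?_⟩
  · rw [ht, r1, r3]; simp [hx, init]
  · rw [ht, r2, r4]; simp [hy, init]

end Par

namespace Ellipse

variable (C : Ellipse)

lemma caustic_eq {S : Plane} (hS : S ∈ C.inside) (n : ℕ) :
    C.caustic S n = env (C.par.X n (S 0) (S 1)) (C.par.Y n (S 0) (S 1)) (C.par.U n (S 0) (S 1))
      (C.par.V n (S 0) (S 1)) := by
  have hS' := (C.mem_inside_iff S).mp hS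
  funext θ
  unfold caustic
  rw [C.line_eq hS n]
  exact cross_eq_env (Par.sm_X hS' n) (Par.sm_Y hS' n) (Par.sm_U hS' n) (Par.sm_V hS' n)
    (Par.orb_unit hS' n) θ

lemma caustic_ne {S : Plane} (hS : S ∈ C.inside) (n : ℕ) (θ : ℝ) : C.caustic S n θ ≠ 0 := by
  have hS' := (C.mem_inside_iff S).mp hS
  obtain ⟨w1, w2⟩ := Par.orb_wg hS' n
  rw [C.caustic_eq hS]
  apply env_ne (Par.orb_unit hS' n)
  rw [w1, w2]
  exact Par.orb_ne n _ _ θ

lemma cusp_iff {S : Plane} (hS : S ∈ C.inside) {n : ℕ} (hn : 1 ≤ n) (i : Fin 3) (θ : ℝ) :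
    C.IsCuspInChart S n i θ ↔ C.caustic S n θ i ≠ 0 ∧ C.par.DD (S 0) (S 1) θ = 0 := by
  have hS' := (C.mem_inside_iff S).mp hS
  obtain ⟨c, -, -, c1, hc⟩ := Par.orb_KK hS' n
  unfold IsCuspInChart causticInChart
  rw [C.caustic_eq hS]
  refine and_congr_right fun h => ?_
  rw [chart_cusp_iff (Par.sm_X hS' n) (Par.sm_Y hS' n) (Par.sm_U hS' n) (Par.sm_V hS' n)
    (Par.orb_unit hS' n) i θ h, hc]
  simp [(c1 hn θ).ne']

lemma cusps_eq {S : Plane} (hS : S ∈ C.inside) {n : ℕ} (hn : 1 ≤ n) :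
    C.cusps S n = {θ ∈ Set.Ico 0 (2 * π) | C.par.DD (S 0) (S 1) θ = 0} := by
  ext θ
  simp only [cusps, Set.mem_ofPred_eq, C.cusp_iff hS hn]
  refine and_congr_right fun _ => ⟨fun ⟨_, _, h⟩ => h, fun h => ?_⟩
  obtain ⟨i, hi⟩ := Function.ne_iff.mp (C.caustic_ne hS n θ)
  exact ⟨i, hi, h⟩

lemma coeff_ne {S : Plane} (hS : S ∈ C.inside) (h1 : S ≠ C.F₁) (h2 : S ≠ C.F₂) :
    C.par.mr (S 0) (S 1) - C.par.mp (S 0) (S 1) ≠ 0 ∨ 2 * C.par.mq (S 0) (S 1) ≠ 0 := by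
  by_contra hc
  push Not at hc
  rcases C.focus_of_scalar hS hc.1 hc.2 with h | h
  · exact h1 h
  · exact h2 h

theorem four_cusps {S : Plane} (hS : S ∈ C.inside) (h1 : S ≠ C.F₁) (h2 : S ≠ C.F₂) {n : ℕ}
    (hn : 1 ≤ n) : (C.cusps S n).ncard = 4 := by
  rw [C.cusps_eq hS hn]
  exact four_zeros (C.coeff_ne hS h1 h2)

theorem ordinary {S : Plane} (hS : S ∈ C.inside) (h1 : S ≠ C.F₁) (h2 : S ≠ C.F₂) {n : ℕ}
    (hn : 1 ≤ n) {θ : ℝ} (hθ : θ ∈ C.cusps S n) : C.IsOrdinaryCusp S n θ := by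
  have hS' := (C.mem_inside_iff S).mp hS
  obtain ⟨-, i, hi⟩ := hθ
  refine ⟨i, hi, ?_⟩
  rw [C.cusp_iff hS hn] at hi
  obtain ⟨hi, hD⟩ := hi
  obtain ⟨c, sc, -, c1, hc⟩ := Par.orb_KK hS' n
  unfold causticInChart
  rw [C.caustic_eq hS] at hi ⊢
  apply chart_ordinary (Par.sm_X hS' n) (Par.sm_Y hS' n) (Par.sm_U hS' n) (Par.sm_V hS' n)
    (Par.orb_unit hS' n) i θ hi (by rw [hc, hD]; simp)
  have e : KK (C.par.X n (S 0) (S 1)) (C.par.Y n (S 0) (S 1)) (C.par.U n (S 0) (S 1))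
      (C.par.V n (S 0) (S 1)) = fun θ => c θ * C.par.DD (S 0) (S 1) θ := funext hc
  have hne := C.coeff_ne hS h1 h2
  unfold Par.DD at hD e
  generalize C.par.mr (S 0) (S 1) - C.par.mp (S 0) (S 1) = a at hD e hne
  generalize 2 * C.par.mq (S 0) (S 1) = b at hD e hne
  have d2 : HasDerivAt (fun θ : ℝ => 2 * θ) 2 θ := by
    simpa using (hasDerivAt_id θ).const_mul 2
  have d := ((sm_has sc θ).mul ((d2.sin.const_mul a).add (d2.cos.const_mul b))).deriv
  rw [e]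
  erw [d]
  simp only [Pi.add_apply]
  rw [hD, mul_zero, zero_add]
  refine mul_ne_zero (c1 hn θ).ne' fun h => ?_
  have h3 := cos_sq_add_sin_sq (2 * θ)
  have ha : a = 0 := by
    linear_combination (cos (2 * θ) / 2) * h + (sin (2 * θ)) * hD - a * h3
  have hb : b = 0 := by
    linear_combination (-sin (2 * θ) / 2) * h + (cos (2 * θ)) * hD - b * h3
  tauto

/-- sources for which a cusp is at infinity -/
def bad (n : ℕ) : Set Plane :=
  {S ∈ C.inside | ∃ θ ∈ Set.Icc 0 (2 * π),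
    C.par.DD (S 0) (S 1) θ = 0 ∧ (C.par.orb n (S 0) (S 1) θ).w = 0}

lemma bad_closed (n : ℕ) : IsClosed ((↑) ⁻¹' C.bad n : Set C.inside) := by
  have c0 : Continuous fun z : C.inside × Set.Icc (0 : ℝ) (2 * π) =>
      init (z.1.1 0) (z.1.1 1) z.2.1 := by
    unfold init; fun_prop
  have c1 : Continuous fun z : C.inside × Set.Icc (0 : ℝ) (2 * π) =>
      C.par.orb n (z.1.1 0) (z.1.1 1) z.2.1 := by
    rw [continuous_iff_continuousAt]
    intro z
    exact ContinuousAt.comp (f := fun z : C.inside × Set.Icc (0 : ℝ) (2 * π) =>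
        init (z.1.1 0) (z.1.1 1) z.2.1)
      (Par.sm_iter (Par.init_good ((C.mem_inside_iff _).mp z.1.2) z.2.1) n).continuousAt
      c0.continuousAt
  have c2 : Continuous fun z : C.inside × Set.Icc (0 : ℝ) (2 * π) =>
      (C.par.orb n (z.1.1 0) (z.1.1 1) z.2.1).w := by fun_prop
  have c3 : Continuous fun z : C.inside × Set.Icc (0 : ℝ) (2 * π) =>
      C.par.DD (z.1.1 0) (z.1.1 1) z.2.1 := by
    unfold Par.DD Par.mr Par.mp Par.mq Par.a₁ Par.a₂ Par.qf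
    fun_prop
  have hc := isClosedMap_fst_of_compactSpace _
    ((isClosed_eq c3 (continuous_const (y := 0))).inter (isClosed_eq c2 (continuous_const (y := 0))))
  convert hc using 1
  ext S
  simp only [bad, Set.mem_preimage, Set.mem_ofPred_eq, Set.mem_image, Set.mem_inter_iff]
  constructor
  · rintro ⟨-, θ, hθ, h1, h2⟩
    exact ⟨(S, ⟨θ, hθ⟩), ⟨h1, h2⟩, rfl⟩
  · rintro ⟨⟨S', θ⟩, ⟨h1, h2⟩, rfl⟩
    exact ⟨S'.2, θ.1, θ.2, h1, h2⟩

lemma bad_null {n : ℕ} (hn : 1 ≤ n) : volume (C.bad n) = 0 := by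
  let T : Plane → St := fun P => C.par.F^[n] (C.par.cen (P 0) (P 1))
  let s : Set Plane := {P ∈ Metric.sphere (0 : Plane) 1 | (T P).w ≠ 0}
  let f : Plane → Plane := fun P =>
    !₂[(T P).x + (T P).g / (T P).w * (T P).u, (T P).y + (T P).g / (T P).w * (T P).v]
  have hs : volume s = 0 :=
    measure_mono_null (fun P hP => hP.1) (Measure.addHaar_sphere volume (0 : Plane) 1)
  have hsq : ∀ P : Plane, P ∈ Metric.sphere (0 : Plane) 1 ↔ P 0 ^ 2 + P 1 ^ 2 = 1 := by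
    intro P
    have := dist_sq_plane P 0
    simp only [PiLp.zero_apply, sub_zero] at this
    rw [Metric.mem_sphere, ← this]
    constructor
    · intro h; rw [h]; norm_num
    · intro h
      exact (pow_eq_one_iff_of_nonneg dist_nonneg two_ne_zero).mp h
  have hf : DifferentiableOn ℝ f s := by
    intro P hP
    apply DifferentiableAt.differentiableWithinAt
    have g : C.par.Good (C.par.cen (P 0) (P 1)) :=
      Par.cen_good (by rw [(hsq P).mp hP.1]; norm_num)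
    have hc : DifferentiableAt ℝ (fun P : Plane => C.par.cen (P 0) (P 1)) P := by
      unfold Par.cen; fun_prop
    have hT : DifferentiableAt ℝ T P :=
      DifferentiableAt.comp (f := fun P : Plane => C.par.cen (P 0) (P 1)) P
        ((Par.sm_iter g n).differentiableAt (by simp)) hc
    have hq : DifferentiableAt ℝ (fun P => (T P).g / (T P).w) P := by
      have a1 : DifferentiableAt ℝ (fun P => (T P).g) P := by fun_prop
      have a2 : DifferentiableAt ℝ (fun P => (T P).w) P := by fun_prop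
      simp only [div_eq_mul_inv]
      exact a1.mul (a2.inv hP.2)
    rw [differentiableAt_piLp]
    intro i
    fin_cases i
    · change DifferentiableAt ℝ (fun P => (T P).x + (T P).g / (T P).w * (T P).u) P
      exact DifferentiableAt.add (by fun_prop) (hq.mul (by fun_prop))
    · change DifferentiableAt ℝ (fun P => (T P).y + (T P).g / (T P).w * (T P).v) P
      exact DifferentiableAt.add (by fun_prop) (hq.mul (by fun_prop))
  refine measure_mono_null ?_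
    (addHaar_image_eq_zero_of_differentiableOn_of_addHaar_eq_zero volume hf hs)
  rintro S ⟨hS, θ, -, h1, h2⟩
  obtain ⟨p, q, hpq, k0, k1, k2⟩ := Par.bad_source ((C.mem_inside_iff S).mp hS) hn θ h1 h2
  refine ⟨!₂[p, q], ⟨(hsq _).mpr hpq, k0⟩, ?_⟩
  ext i
  fin_cases i
  · exact k1.symm
  · exact k2.symm

theorem generic (n : ℕ) (hn : 1 ≤ n) :
    ∃ Z : Set Plane, Z ⊆ C.inside ∧ IsClosed ((↑) ⁻¹' Z : Set C.inside) ∧ volume Z = 0 ∧
      ∀ S ∈ C.inside \ Z, (C.cusps S n).ncard = 4 ∧ C.finiteCusps S n = C.cusps S n := by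
  have hlt := C.dist_lt
  refine ⟨C.bad n ∪ {C.F₁, C.F₂}, ?_, ?_, ?_, ?_⟩
  · rintro S (hS | rfl | rfl)
    · exact hS.1
    · simpa [inside, focalSum] using hlt
    · simpa [inside, focalSum, dist_comm] using hlt
  · rw [Set.preimage_union]
    exact (C.bad_closed n).union
      (((Set.finite_singleton _).insert _).isClosed.preimage continuous_subtype_val)
  · exact measure_union_null (C.bad_null hn)
      (((Set.finite_singleton _).insert _).measure_zero _)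
  · rintro S ⟨hS, hZ⟩
    simp only [Set.mem_union, Set.mem_insert_iff, Set.mem_singleton_iff, not_or] at hZ
    refine ⟨C.four_cusps hS hZ.2.1 hZ.2.2 hn, ?_⟩
    rw [C.cusps_eq hS hn]
    ext θ
    simp only [finiteCusps, Set.mem_ofPred_eq, C.cusp_iff hS hn]
    refine and_congr_right fun hθ => ⟨fun h => h.2, fun h => ⟨fun h0 => hZ.1 ?_, h⟩⟩
    refine ⟨hS, θ, ⟨hθ.1, hθ.2.le⟩, h, ?_⟩
    rw [C.caustic_eq hS, env_two, (Par.orb_wg ((C.mem_inside_iff S).mp hS) n).1] at h0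
    exact h0

end Ellipse

end Pool.Agent.P.MP_3225bd_gt
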