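import Pool.Agent.P.MP_3225bd_gt.Core

/-!
The billiard map of an ellipse in coordinates, extended by its action on the pair
(angular velocity, normal velocity) of a one parameter family of lines.
-/

open scoped ContDiff

namespace Pool.Agent.P.MP_3225bd_gt

/-- coefficients and centre of the quadratic form defining the ellipse -/
structure Par where
  α : ℝ
  β : ℝ
  γ : ℝ
  c₁ : ℝ
  c₂ : ℝ
  hα : 0 < α
  hΔ : 0 < α * γ - β ^ 2

/-- extended state: point, direction, angular velocity, normal velocity -/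
abbrev St := ℝ × ℝ × ℝ × ℝ × ℝ × ℝ

namespace St
abbrev x (s : St) : ℝ := s.1
abbrev y (s : St) : ℝ := s.2.1
abbrev u (s : St) : ℝ := s.2.2.1
abbrev v (s : St) : ℝ := s.2.2.2.1
abbrev w (s : St) : ℝ := s.2.2.2.2.1
abbrev g (s : St) : ℝ := s.2.2.2.2.2
end St

namespace Par

variable (Q : Par)

def Δ : ℝ := Q.α * Q.γ - Q.β ^ 2
def qA (s : St) : ℝ := Q.α * s.u ^ 2 + 2 * Q.β * s.u * s.v + Q.γ * s.v ^ 2
def qB (s : St) : ℝ := (Q.α * (s.x - Q.c₁) + Q.β * (s.y - Q.c₂)) * s.u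
  + (Q.β * (s.x - Q.c₁) + Q.γ * (s.y - Q.c₂)) * s.v
def qf (x y : ℝ) : ℝ :=
  Q.α * (x - Q.c₁) ^ 2 + 2 * Q.β * (x - Q.c₁) * (y - Q.c₂) + Q.γ * (y - Q.c₂) ^ 2
def D (s : St) : ℝ := Q.qB s ^ 2 - Q.qA s * (Q.qf s.x s.y - 1)
noncomputable def J (s : St) : ℝ := √(Q.D s)
noncomputable def t (s : St) : ℝ := (Q.J s - Q.qB s) / Q.qA s
noncomputable def hx (s : St) : ℝ := s.x + Q.t s * s.u
noncomputable def hy (s : St) : ℝ := s.y + Q.t s * s.v
noncomputable def N₁ (s : St) : ℝ := Q.α * (Q.hx s - Q.c₁) + Q.β * (Q.hy s - Q.c₂)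
noncomputable def N₂ (s : St) : ℝ := Q.β * (Q.hx s - Q.c₁) + Q.γ * (Q.hy s - Q.c₂)
noncomputable def ρ (s : St) : ℝ := Q.N₁ s ^ 2 + Q.N₂ s ^ 2

/-- the extended billiard map -/
noncomputable def F (s : St) : St :=
  (Q.hx s, Q.hy s, s.u - 2 * Q.J s / Q.ρ s * Q.N₁ s, s.v - 2 * Q.J s / Q.ρ s * Q.N₂ s,
    -s.w - 2 * Q.Δ * (s.g - Q.t s * s.w) / (Q.J s * Q.ρ s), -(s.g - Q.t s * s.w))

/-- states whose line crosses the ellipse in two points -/
def Good (s : St) : Prop := 0 < s.u ^ 2 + s.v ^ 2 ∧ 0 < Q.D s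

variable {Q}

lemma Δ_pos : 0 < Q.Δ := Q.hΔ

lemma qA_pos {s : St} (h : 0 < s.u ^ 2 + s.v ^ 2) : 0 < Q.qA s := by
  have h1 := Q.hα
  have h2 := Q.hΔ
  have e : Q.α * Q.qA s = (Q.α * s.u + Q.β * s.v) ^ 2 + (Q.α * Q.γ - Q.β ^ 2) * s.v ^ 2 := by
    unfold qA; ring
  have : 0 < Q.α * Q.qA s := by
    rw [e]
    by_cases hv : s.v = 0
    · have hu : s.u ≠ 0 := by
        intro hu; rw [hu, hv] at h; simp at h
      rw [hv]
      have : 0 < (Q.α * s.u + Q.β * 0) ^ 2 := by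
        have : Q.α * s.u + Q.β * 0 ≠ 0 := by simp [h1.ne', hu]
        positivity
      simpa using this
    · have : 0 < (Q.α * Q.γ - Q.β ^ 2) * s.v ^ 2 := by positivity
      positivity
  exact (mul_pos_iff_of_pos_left h1).mp this

lemma qf_nonneg (x y : ℝ) : 0 ≤ Q.qf x y := by
  have h1 := Q.hα
  have h2 := Q.hΔ
  have e : Q.α * Q.qf x y = (Q.α * (x - Q.c₁) + Q.β * (y - Q.c₂)) ^ 2
      + (Q.α * Q.γ - Q.β ^ 2) * (y - Q.c₂) ^ 2 := by
    unfold qf; ring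
  have : 0 ≤ Q.α * Q.qf x y := by rw [e]; positivity
  exact (mul_nonneg_iff_of_pos_left h1).mp this

lemma J_pos {s : St} (h : Q.Good s) : 0 < Q.J s := Real.sqrt_pos.mpr h.2

lemma J_sq {s : St} (h : Q.Good s) : Q.J s ^ 2 = Q.D s := Real.sq_sqrt h.2.le

lemma t_mul {s : St} (h : Q.Good s) : Q.t s * Q.qA s = Q.J s - Q.qB s := by
  have := (qA_pos (Q := Q) h.1).ne'
  unfold t; field_simp

lemma NJ {s : St} (h : Q.Good s) : Q.J s = Q.N₁ s * s.u + Q.N₂ s * s.v := by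
  have := t_mul h
  unfold N₁ N₂ hx hy
  unfold qA qB at this
  linear_combination (-1 : ℝ) * this

lemma hit_on {s : St} (h : Q.Good s) : Q.qf (Q.hx s) (Q.hy s) = 1 := by
  have h1 := t_mul h
  have h2 := J_sq h
  have h3 := (qA_pos (Q := Q) h.1).ne'
  have e : Q.qf (Q.hx s) (Q.hy s) = Q.qf s.x s.y + 2 * Q.t s * Q.qB s + Q.t s ^ 2 * Q.qA s := by
    unfold qf hx hy qA qB; ring
  apply mul_left_cancel₀ h3
  rw [e]
  unfold D at h2
  linear_combination (Q.t s * Q.qA s + Q.J s + Q.qB s) * h1 + h2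

lemma ρ_pos {s : St} (h : Q.Good s) : 0 < Q.ρ s := by
  have h1 := J_pos h
  rw [NJ h] at h1
  unfold ρ
  by_contra hc
  have a1 : Q.N₁ s = 0 := by nlinarith [sq_nonneg (Q.N₁ s), sq_nonneg (Q.N₂ s)]
  have a2 : Q.N₂ s = 0 := by nlinarith [sq_nonneg (Q.N₁ s), sq_nonneg (Q.N₂ s)]
  rw [a1, a2] at h1
  simp at h1

lemma F_x (s : St) : (Q.F s).x = Q.hx s := rfl
lemma F_y (s : St) : (Q.F s).y = Q.hy s := rfl
lemma F_u (s : St) : (Q.F s).u = s.u - 2 * Q.J s / Q.ρ s * Q.N₁ s := rfl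
lemma F_v (s : St) : (Q.F s).v = s.v - 2 * Q.J s / Q.ρ s * Q.N₂ s := rfl
lemma F_w (s : St) :
    (Q.F s).w = -s.w - 2 * Q.Δ * (s.g - Q.t s * s.w) / (Q.J s * Q.ρ s) := rfl
lemma F_g (s : St) : (Q.F s).g = -(s.g - Q.t s * s.w) := rfl

lemma F_norm {s : St} (h : Q.Good s) :
    (Q.F s).u ^ 2 + (Q.F s).v ^ 2 = s.u ^ 2 + s.v ^ 2 := by
  have h1 := (ρ_pos h).ne'
  rw [F_u, F_v]
  field_simp
  rw [NJ h]
  unfold ρ
  ring

lemma F_qB {s : St} (h : Q.Good s) : Q.qB (Q.F s) = -Q.J s := by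
  have h1 := (ρ_pos h).ne'
  have e : Q.qB (Q.F s) = Q.N₁ s * (Q.F s).u + Q.N₂ s * (Q.F s).v := rfl
  rw [e, F_u, F_v]
  field_simp
  have := NJ h
  unfold ρ
  linear_combination (-(Q.N₁ s ^ 2 + Q.N₂ s ^ 2)) * this

lemma F_D {s : St} (h : Q.Good s) : Q.D (Q.F s) = Q.D s := by
  have e : Q.D (Q.F s) = Q.qB (Q.F s) ^ 2 - Q.qA (Q.F s) * (Q.qf (Q.hx s) (Q.hy s) - 1) := rfl
  rw [e, hit_on h, F_qB h, ← J_sq h]
  ring

lemma F_J {s : St} (h : Q.Good s) : Q.J (Q.F s) = Q.J s := by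
  unfold J; rw [F_D h]

lemma F_good {s : St} (h : Q.Good s) : Q.Good (Q.F s) :=
  ⟨by rw [F_norm h]; exact h.1, by rw [F_D h]; exact h.2⟩

lemma iter_good {s : St} (h : Q.Good s) (n : ℕ) : Q.Good (Q.F^[n] s) := by
  induction n with
  | zero => exact h
  | succ n ih => rw [Function.iterate_succ_apply']; exact F_good ih

lemma iter_D {s : St} (h : Q.Good s) (n : ℕ) : Q.D (Q.F^[n] s) = Q.D s := by
  induction n with
  | zero => rfl
  | succ n ih => rw [Function.iterate_succ_apply', F_D (iter_good h n), ih]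

lemma iter_norm {s : St} (h : Q.Good s) (n : ℕ) :
    (Q.F^[n] s).u ^ 2 + (Q.F^[n] s).v ^ 2 = s.u ^ 2 + s.v ^ 2 := by
  induction n with
  | zero => rfl
  | succ n ih => rw [Function.iterate_succ_apply', F_norm (iter_good h n), ih]

/-- the pair of velocities never vanishes -/
lemma F_ne {s : St} (hne : s.w ≠ 0 ∨ s.g ≠ 0) : (Q.F s).w ≠ 0 ∨ (Q.F s).g ≠ 0 := by
  by_contra hc
  push Not at hc
  obtain ⟨h1, h2⟩ := hc
  rw [F_w] at h1
  rw [F_g] at h2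
  have h3 : s.g - Q.t s * s.w = 0 := by linarith
  rw [h3] at h1
  have h4 : s.w = 0 := by simpa using h1
  rw [h4] at h3
  have h5 : s.g = 0 := by simpa using h3
  tauto

lemma iter_ne {s : St} (hne : s.w ≠ 0 ∨ s.g ≠ 0) (n : ℕ) :
    (Q.F^[n] s).w ≠ 0 ∨ (Q.F^[n] s).g ≠ 0 := by
  induction n with
  | zero => exact hne
  | succ n ih => rw [Function.iterate_succ_apply']; exact F_ne ih

/-! smoothness -/

lemma sm_qA : ContDiff ℝ ∞ Q.qA := by unfold qA; fun_prop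
lemma sm_qB : ContDiff ℝ ∞ Q.qB := by unfold qB; fun_prop
lemma sm_D : ContDiff ℝ ∞ Q.D := by unfold D qA qB qf; fun_prop

lemma sm_J {s : St} (h : Q.Good s) : ContDiffAt ℝ ∞ Q.J s :=
  ContDiffAt.sqrt sm_D.contDiffAt h.2.ne'

lemma sm_t {s : St} (h : Q.Good s) : ContDiffAt ℝ ∞ Q.t s :=
  ContDiffAt.div ((sm_J h).sub sm_qB.contDiffAt) sm_qA.contDiffAt (qA_pos h.1).ne'

lemma sm_hx {s : St} (h : Q.Good s) : ContDiffAt ℝ ∞ Q.hx s := by
  have := sm_t h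
  unfold hx; fun_prop

lemma sm_hy {s : St} (h : Q.Good s) : ContDiffAt ℝ ∞ Q.hy s := by
  have := sm_t h
  unfold hy; fun_prop

lemma sm_N₁ {s : St} (h : Q.Good s) : ContDiffAt ℝ ∞ Q.N₁ s := by
  have := sm_hx h
  have := sm_hy h
  unfold N₁; fun_prop

lemma sm_N₂ {s : St} (h : Q.Good s) : ContDiffAt ℝ ∞ Q.N₂ s := by
  have := sm_hx h
  have := sm_hy h
  unfold N₂; fun_prop

lemma sm_ρ {s : St} (h : Q.Good s) : ContDiffAt ℝ ∞ Q.ρ s := by
  have := sm_N₁ h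
  have := sm_N₂ h
  unfold ρ; fun_prop

lemma sm_F {s : St} (h : Q.Good s) : ContDiffAt ℝ ∞ Q.F s := by
  have a1 := sm_hx h
  have a2 := sm_hy h
  have a3 := sm_N₁ h
  have a4 := sm_N₂ h
  have a5 := sm_ρ h
  have a6 := sm_J h
  have a7 := sm_t h
  have b1 : ContDiffAt ℝ ∞ (fun s => 2 * Q.J s / Q.ρ s) s :=
    ContDiffAt.div (by fun_prop) a5 (ρ_pos h).ne'
  have b2 : ContDiffAt ℝ ∞ (fun s : St => 2 * Q.Δ * (s.g - Q.t s * s.w) / (Q.J s * Q.ρ s)) s :=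
    ContDiffAt.div (by fun_prop) (by fun_prop) (mul_pos (J_pos h) (ρ_pos h)).ne'
  unfold F
  refine a1.prodMk (a2.prodMk (ContDiffAt.prodMk ?_ (ContDiffAt.prodMk ?_
    (ContDiffAt.prodMk ?_ ?_))))
  · exact ContDiffAt.sub (by fun_prop) (b1.mul a3)
  · exact ContDiffAt.sub (by fun_prop) (b1.mul a4)
  · exact ContDiffAt.sub (by fun_prop) b2
  · fun_prop

lemma sm_iter {s : St} (h : Q.Good s) (n : ℕ) : ContDiffAt ℝ ∞ (Q.F^[n]) s := by
  induction n with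
  | zero => exact contDiffAt_id
  | succ n ih =>
    rw [Function.iterate_succ']
    exact (sm_F (iter_good h n)).comp s ih

/-! reversibility -/

/-- reversed state seen from the next hitting point -/
noncomputable def rev (Q : Par) (s : St) : St :=
  (Q.hx s, Q.hy s, -s.u, -s.v, s.w, -(s.g - Q.t s * s.w))

/-- `F` only depends on the oriented line -/
lemma F_congr {s s' : St} (h : Q.Good s) (r : ℝ) (hx' : s'.x = s.x + r * s.u)
    (hy' : s'.y = s.y + r * s.v) (hu : s'.u = s.u) (hv : s'.v = s.v) (hw : s'.w = s.w)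
    (hg : s'.g = s.g - r * s.w) : Q.F s' = Q.F s ∧ Q.Good s' := by
  have hA : Q.qA s' = Q.qA s := by unfold qA; rw [hu, hv]
  have hB : Q.qB s' = Q.qB s + r * Q.qA s := by
    unfold qA qB; rw [hu, hv, hx', hy']; ring
  have hD : Q.D s' = Q.D s := by
    unfold D qA qB qf; rw [hu, hv, hx', hy']; ring
  have hJ : Q.J s' = Q.J s := by unfold J; rw [hD]
  have ht : Q.t s' = Q.t s - r := by
    have := (qA_pos (Q := Q) h.1).ne'
    unfold t; rw [hJ, hA, hB]; field_simp; ring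
  have h1 : Q.hx s' = Q.hx s := by unfold hx; rw [ht, hu, hx']; ring
  have h2 : Q.hy s' = Q.hy s := by unfold hy; rw [ht, hv, hy']; ring
  have h3 : Q.N₁ s' = Q.N₁ s := by unfold N₁; rw [h1, h2]
  have h4 : Q.N₂ s' = Q.N₂ s := by unfold N₂; rw [h1, h2]
  have h5 : Q.ρ s' = Q.ρ s := by unfold ρ; rw [h3, h4]
  have h6 : s'.g - Q.t s' * s'.w = s.g - Q.t s * s.w := by rw [hg, ht, hw]; ring
  refine ⟨?_, ⟨by rw [hu, hv]; exact h.1, by rw [hD]; exact h.2⟩⟩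
  unfold F
  rw [h1, h2, h3, h4, h5, h6, hJ, hu, hv, hw]

lemma F_rev_F {s : St} (h : Q.Good s) : Q.F (Q.rev (Q.F s)) = Q.rev s := by
  have h' := F_good h
  -- the reversed outgoing state based at the reflection point
  let s₀ : St := (Q.hx s, Q.hy s, -(Q.F s).u, -(Q.F s).v, (Q.F s).w, -(Q.F s).g)
  have hA : Q.qA s₀ = Q.qA (Q.F s) := by simp only [qA, s₀]; ring
  have hB : Q.qB s₀ = Q.J s := by
    have := F_qB h
    have e : Q.qB s₀ = -Q.qB (Q.F s) := by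
      simp only [qB, s₀, F_x, F_y]; ring
    rw [e, this]; ring
  have hD : Q.D s₀ = Q.D s := by
    have e : Q.D s₀ = Q.qB s₀ ^ 2 - Q.qA s₀ * (Q.qf (Q.hx s) (Q.hy s) - 1) := rfl
    rw [e, hit_on h, hB, J_sq h]; ring
  have hg₀ : Q.Good s₀ := by
    refine ⟨?_, by rw [hD]; exact h.2⟩
    have := h'.1
    simp only [s₀]
    nlinarith
  have hJ : Q.J s₀ = Q.J s := by unfold J; rw [hD]
  have ht : Q.t s₀ = 0 := by unfold t; rw [hJ, hB]; simp
  have e1 := (F_congr (s' := Q.rev (Q.F s)) hg₀ (-Q.t (Q.F s))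
    (by simp only [rev, s₀, hx, F_x]; ring) (by simp only [rev, s₀, hy, F_y]; ring) rfl rfl rfl
    (by simp only [rev, s₀]; ring)).1
  rw [e1]
  have h1 : Q.hx s₀ = Q.hx s := by
    have : Q.hx s₀ = Q.hx s + Q.t s₀ * s₀.u := rfl
    rw [this, ht]; ring
  have h2 : Q.hy s₀ = Q.hy s := by
    have : Q.hy s₀ = Q.hy s + Q.t s₀ * s₀.v := rfl
    rw [this, ht]; ring
  have h3 : Q.N₁ s₀ = Q.N₁ s := by unfold N₁; rw [h1, h2]
  have h4 : Q.N₂ s₀ = Q.N₂ s := by unfold N₂; rw [h1, h2]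
  have h5 : Q.ρ s₀ = Q.ρ s := by unfold ρ; rw [h3, h4]
  have eu : s₀.u = -(s.u - 2 * Q.J s / Q.ρ s * Q.N₁ s) := rfl
  have ev : s₀.v = -(s.v - 2 * Q.J s / Q.ρ s * Q.N₂ s) := rfl
  have ew : s₀.w = -s.w - 2 * Q.Δ * (s.g - Q.t s * s.w) / (Q.J s * Q.ρ s) := rfl
  have eg : s₀.g = -(-(s.g - Q.t s * s.w)) := rfl
  unfold F rev
  rw [h1, h2, h3, h4, h5, hJ, ht, eu, ev, ew, eg]
  refine Prod.ext rfl (Prod.ext rfl (Prod.ext ?_ (Prod.ext ?_ (Prod.ext ?_ ?_)))) <;>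
    simp only <;> ring

lemma iter_rev {s : St} (h : Q.Good s) (n : ℕ) : Q.F^[n] (Q.rev (Q.F^[n] s)) = Q.rev s := by
  induction n with
  | zero => rfl
  | succ n ih =>
    rw [Function.iterate_succ_apply, Function.iterate_succ_apply', F_rev_F (iter_good h n), ih]

/-- homogeneity in the velocity pair -/
def scale (c : ℝ) (s : St) : St := (s.x, s.y, s.u, s.v, c * s.w, c * s.g)

lemma F_scale (c : ℝ) (s : St) : Q.F (scale c s) = scale c (Q.F s) := by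
  have ht : Q.t (scale c s) = Q.t s := rfl
  have hJ : Q.J (scale c s) = Q.J s := rfl
  have hρ : Q.ρ (scale c s) = Q.ρ s := rfl
  have ew : (scale c s).w = c * s.w := rfl
  have eg : (scale c s).g = c * s.g := rfl
  refine Prod.ext rfl (Prod.ext rfl (Prod.ext rfl (Prod.ext rfl (Prod.ext ?_ ?_))))
  · change (Q.F (scale c s)).w = c * (Q.F s).w
    rw [F_w, F_w, ht, hJ, hρ, ew, eg]; ring
  · change (Q.F (scale c s)).g = c * (Q.F s).g
    rw [F_g, F_g, ht, ew, eg]; ring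

lemma iter_scale (c : ℝ) (s : St) (n : ℕ) : Q.F^[n] (scale c s) = scale c (Q.F^[n] s) := by
  induction n with
  | zero => rfl
  | succ n ih => rw [Function.iterate_succ_apply', Function.iterate_succ_apply', ih, F_scale]

end Par

end Pool.Agent.P.MP_3225bd_gt
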