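import Pool.Agent.P.MP_3225bd_gt.Main

open Pool.Agent.P.MP_3225bd_gt MeasureTheory

namespace Pool.Agent.Results.MP_3225bd_gt.FourCusps

/-- For every ellipse and every `n ≥ 1` there is a relatively closed null set `Z ⊆ Ω` such that
for every source `S ∈ Ω \ Z` the `n`th caustic by reflection is a well defined curve in the
projective plane, has exactly four cusps, and these are all at points of the Euclidean plane. -/
theorem result (C : Ellipse) (n : ℕ) (hn : 1 ≤ n) :
    ∃ Z : Set Plane, Z ⊆ C.inside ∧ IsClosed (Subtype.val ⁻¹' Z : Set C.inside) ∧ volume Z = 0 ∧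
      ∀ S ∈ C.inside \ Z, (∀ θ, C.caustic S n θ ≠ 0) ∧ (C.cusps S n).ncard = 4 ∧
        C.finiteCusps S n = C.cusps S n := by
  obtain ⟨Z, h1, h2, h3, h4⟩ := C.generic n hn
  exact ⟨Z, h1, h2, h3, fun S hS => ⟨C.caustic_ne hS.1 n, h4 S hS⟩⟩

end Pool.Agent.Results.MP_3225bd_gt.FourCusps
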