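import Pool.Agent.P.MP_3225bd_gt.Main

open Pool.Agent.P.MP_3225bd_gt

namespace Pool.Agent.Results.MP_3225bd_gt.NonFocalOrdinary

/-- For every ellipse, every `n ≥ 1` and every interior source `S` other than a focus, the `n`th
caustic by reflection is a well defined curve in the projective plane with exactly four cusps,
and all four are ordinary. -/
theorem result (C : Ellipse) (n : ℕ) (hn : 1 ≤ n) (S : Plane) (hS : S ∈ C.inside)
    (h₁ : S ≠ C.F₁) (h₂ : S ≠ C.F₂) :
    (∀ θ, C.caustic S n θ ≠ 0) ∧ (C.cusps S n).ncard = 4 ∧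
      ∀ θ ∈ C.cusps S n, C.IsOrdinaryCusp S n θ :=
  ⟨C.caustic_ne hS n, C.four_cusps hS h₁ h₂ hn, fun _ hθ => C.ordinary hS h₁ h₂ hn hθ⟩

end Pool.Agent.Results.MP_3225bd_gt.NonFocalOrdinary
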